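import Pool.Agent.Helper83.BK.Duality

set_option autoImplicit false

namespace Pool.Agent.Helper83.BK

open Submodule Module

universe u v

variable {k : Type u} [Field k] {d : ℕ} {L : Type v} [LieRing L] [LieAlgebra k L]

/-- evaluation of a two-tensor by the bracket -/
noncomputable def E2 (E : (Fin d → k) →ₗ[k] L) : (Fin d → Fin d → k) →ₗ[k] L where
  toFun t := ∑ i, ∑ j, t i j • ⁅E (eb k d i), E (eb k d j)⁆
  map_add' a b := by simp [add_smul, Finset.sum_add_distrib]
  map_smul' c a := by simp [Finset.smul_sum, mul_smul]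

lemma E2_apply (E : (Fin d → k) →ₗ[k] L) (t : Fin d → Fin d → k) :
    E2 E t = ∑ i, ∑ j, t i j • ⁅E (eb k d i), E (eb k d j)⁆ := rfl

/-- the antisymmetric relations -/
def RR (E : (Fin d → k) →ₗ[k] L) : Submodule k (Fin d → Fin d → k) where
  carrier := {r | (∀ i j, r i j = - r j i) ∧ E2 E r = 0}
  add_mem' := by
    rintro a b ⟨ha, ha'⟩ ⟨hb, hb'⟩
    refine ⟨fun i j => ?_, by rw [map_add, ha', hb', add_zero]⟩
    rw [Pi.add_apply, Pi.add_apply, Pi.add_apply, Pi.add_apply, ha i j, hb i j]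
    ring
  zero_mem' := ⟨fun i j => by simp, map_zero _⟩
  smul_mem' := by
    rintro c a ⟨ha, ha'⟩
    refine ⟨fun i j => ?_, by rw [map_smul, ha', smul_zero]⟩
    rw [Pi.smul_apply, Pi.smul_apply, Pi.smul_apply, Pi.smul_apply, ha i j]
    simp

lemma E_sum (E : (Fin d → k) →ₗ[k] L) (a : Fin d → k) : E a = ∑ i, a i • E (eb k d i) := by
  conv_lhs => rw [← sum_eb a]
  rw [map_sum]
  simp only [map_smul]

lemma E2_tens (E : (Fin d → k) →ₗ[k] L) (a b : Fin d → k) : E2 E (tens a b) = ⁅E a, E b⁆ := by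
  rw [E2_apply, E_sum E a, E_sum E b, sum_lie]
  refine Finset.sum_congr rfl fun i _ => ?_
  rw [lie_sum]
  refine Finset.sum_congr rfl fun j _ => ?_
  rw [smul_lie, lie_smul, smul_smul]
  rfl

/-- all slots in `Y` -/
def InY (Y : Submodule k (Fin d → k)) (t : Fin d → Fin d → Fin d → k) : Prop :=
  (∀ i j, t i j ∈ Y) ∧ (∀ i l, (fun j => t i j l) ∈ Y) ∧ (∀ j l, (fun i => t i j l) ∈ Y)

/-- no cubic relations -/
def CY (E : (Fin d → k) →ₗ[k] L) (Y : Submodule k (Fin d → k)) : Prop :=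
  ∀ t : Fin d → Fin d → Fin d → k, InY Y t → (∀ i j l, t i j l = - t i l j) →
    ∑ i, ⁅E (eb k d i), E2 E (t i)⁆ = 0 →
    ∃ a b : Fin d → Fin d → Fin d → k, t = a + b ∧ (∀ i j l, a i j l = - a i l j) ∧
      (∀ i j l, a i j l = - a j i l) ∧ InY Y b ∧ ∀ i, b i ∈ RR E

lemma jac_zero (E : (Fin d → k) →ₗ[k] L) (z : L) (ρ : Fin d → Fin d → k) (hρ : ρ ∈ RR E) :
    ∑ i, ∑ j, ρ i j • ⁅E (eb k d i), ⁅z, E (eb k d j)⁆⁆ +
      ∑ i, ∑ j, ρ i j • ⁅E (eb k d i), ⁅z, E (eb k d j)⁆⁆ = 0 := by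
  have h1 : ⁅z, E2 E ρ⁆ = 0 := by rw [hρ.2, lie_zero]
  rw [E2_apply, lie_sum] at h1
  simp only [lie_sum, lie_smul] at h1
  have h2 : ∀ i j, ρ i j • ⁅z, ⁅E (eb k d i), E (eb k d j)⁆⁆ =
      ρ j i • ⁅E (eb k d j), ⁅z, E (eb k d i)⁆⁆ + ρ i j • ⁅E (eb k d i), ⁅z, E (eb k d j)⁆⁆ := by
    intro i j
    have h3 : ⁅z, ⁅E (eb k d i), E (eb k d j)⁆⁆ =
        ⁅⁅z, E (eb k d i)⁆, E (eb k d j)⁆ + ⁅E (eb k d i), ⁅z, E (eb k d j)⁆⁆ := leibniz_lie _ _ _
    have h4 : ⁅⁅z, E (eb k d i)⁆, E (eb k d j)⁆ = -⁅E (eb k d j), ⁅z, E (eb k d i)⁆⁆ :=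
      (lie_skew _ _).symm
    rw [h3, h4, smul_add, hρ.1 j i, smul_neg, neg_smul]
  simp only [h2, Finset.sum_add_distrib] at h1
  rw [Finset.sum_comm] at h1
  exact h1

lemma two_cancel (h2 : (2 : k) ≠ 0) {x : k} (h : x + x = 0) : x = 0 := by
  have : (2 : k) * x = 0 := by rw [two_mul]; exact h
  exact (mul_eq_zero.1 this).resolve_left h2

lemma Star_top (R : Submodule k (Fin d → Fin d → k)) : Star R ⊤ := by
  rintro x ⟨-, hx⟩
  rw [SetLike.mem_coe, Submodule.mem_sup] at hx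
  obtain ⟨a, ha, b, hb, rfl⟩ := hx
  exact Submodule.add_mem_sup ⟨fun i j => Submodule.mem_top, ha⟩ ⟨fun i j => Submodule.mem_top, hb⟩

lemma antisymm_contr (h2 : (2 : k) ≠ 0) {r : Fin d → Fin d → k} (hr : ∀ i j, r i j = - r j i)
    (ζ : Fin d → k) : ∑ j, (contr ζ r) j * ζ j = 0 := by
  apply two_cancel h2
  have e1 : ∑ j, (contr ζ r) j * ζ j = ∑ j, ∑ l, r j l * ζ l * ζ j := by
    refine Finset.sum_congr rfl fun j _ => ?_
    show (∑ l, r j l * ζ l) * ζ j = _
    rw [Finset.sum_mul]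
  have e2 : ∑ j, ∑ l, r j l * ζ l * ζ j = -∑ j, ∑ l, r j l * ζ l * ζ j := by
    conv_lhs => rw [Finset.sum_comm]
    rw [← Finset.sum_neg_distrib]
    refine Finset.sum_congr rfl fun j _ => ?_
    rw [← Finset.sum_neg_distrib]
    refine Finset.sum_congr rfl fun l _ => ?_
    rw [hr l j]
    ring
  rw [e1]
  nth_rewrite 2 [e2]
  ring

lemma star_step (h2 : (2 : k) ≠ 0) (E : (Fin d → k) →ₗ[k] L) (Y : Submodule k (Fin d → k))
    (z : Fin d → k) (hz : z ∉ Y) (hY1 : Star (RR E) (Y ⊔ k ∙ z)) (hCY : CY E Y) :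
    Star (RR E) Y := by
  rintro x ⟨hxY, hx⟩
  obtain ⟨ζ, hζ, hζ1⟩ := exists_y Y z hz
  have hx1 : x ∈ VVY (Y ⊔ k ∙ z) ⊓ (RV (RR E) ⊔ VR (RR E)) :=
    ⟨fun i j => Submodule.mem_sup_left (hxY i j), hx⟩
  have hx2 := hY1 hx1
  rw [Submodule.mem_sup] at hx2
  obtain ⟨σ, ⟨hσY, hσR⟩, κ, ⟨hκY, hκR⟩, rfl⟩ := hx2
  obtain ⟨Θ, hΘ⟩ := exists_section (S := RR E) hζ hζ1
  -- the tensor ρ
  set ρ : Fin d → Fin d → k := fun i j => ∑ l, σ i j l * ζ l with hρdef
  have hρR : ρ ∈ RR E := by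
    have : ρ = ∑ l, ζ l • (fun i j => σ i j l) := by
      funext i j
      simp [hρdef, Finset.sum_apply, mul_comm]
    rw [this]
    exact Submodule.sum_mem _ fun l _ => Submodule.smul_mem _ _ (hσR l)
  have hκρ : ∀ i j, ∑ l, κ i j l * ζ l = - ρ i j := by
    intro i j
    have h3 := hζ _ (hxY i j)
    simp only [Pi.add_apply, add_mul, Finset.sum_add_distrib] at h3
    exact eq_neg_of_add_eq_zero_right h3
  have hρW : ∀ i, ρ i ∈ JW (RR E) Y z := by
    intro i
    have h3 : contr ζ (κ i) ∈ JW (RR E) Y z := contr_mem hζ hζ1 (hκR i) (hκY i)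
    have h4 : contr ζ (κ i) = - ρ i := by
      funext j
      exact hκρ i j
    rw [h4] at h3
    have := Submodule.neg_mem _ h3
    rwa [neg_neg] at this
  -- W is contained in Y
  have hWY : ∀ a ∈ JW (RR E) Y z, a ∈ Y := by
    intro a ha
    obtain ⟨hR, hV, hc⟩ := hΘ a ha
    have h3 : ∑ j, a j * ζ j = 0 := by
      have := antisymm_contr h2 hR.1 ζ
      rwa [hc] at this
    have h4 : a ∈ Y ⊔ k ∙ z := by
      have h5 : a = ∑ l, (-ζ l) • (Θ a l) := by
        conv_lhs => rw [← hc]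
        funext j
        show ∑ l, Θ a j l * ζ l = _
        rw [Finset.sum_apply]
        refine Finset.sum_congr rfl fun l _ => ?_
        rw [hR.1 j l]
        simp [mul_comm]
      rw [h5]
      exact Submodule.sum_mem _ fun l _ => Submodule.smul_mem _ _ (hV l)
    have h5 := decomp hζ hζ1 h4
    rw [h3, zero_smul, sub_zero] at h5
    exact h5
  have hcolY : ∀ m, (fun l => ρ l m) ∈ Y := by
    intro m
    have : (fun l => ρ l m) = - ρ m := by
      funext l
      rw [hρR.1 l m]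
      rfl
    rw [this]
    exact Y.neg_mem (hWY _ (hρW m))
  have hΘexp : ∀ a : Fin d → k, Θ a = ∑ m, a m • Θ (eb k d m) := by
    intro a
    conv_lhs => rw [← sum_eb a]
    rw [map_sum]
    simp only [map_smul]
  -- the map φ
  set φ : (Fin d → k) → Fin d → Fin d → k := fun a i j => Θ a i j - a i * z j + z i * a j with hφdef
  have hφanti : ∀ a ∈ JW (RR E) Y z, ∀ i j, φ a i j = - φ a j i := by
    intro a ha i j
    have := (hΘ a ha).1.1 i j
    simp only [hφdef]
    linear_combination this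
  have hφrow : ∀ a ∈ JW (RR E) Y z, ∀ j, φ a j ∈ Y := by
    intro a ha j
    have h3 := decomp hζ hζ1 ((hΘ a ha).2.1 j)
    have h4 : ∑ l, Θ a j l * ζ l = a j := congrFun (hΘ a ha).2.2 j
    rw [h4] at h3
    have h5 := Y.add_mem h3 (Y.smul_mem (z j) (hWY a ha))
    exact h5
  -- the tensor t
  set t : Fin d → Fin d → Fin d → k := fun i => φ (ρ i) with htdef
  have htY : InY Y t := by
    refine ⟨fun i j => hφrow _ (hρW i) j, fun i l => ?_, fun j l => ?_⟩
    · have : (fun j => t i j l) = - φ (ρ i) l := by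
        funext j
        exact hφanti _ (hρW i) j l
      rw [this]
      exact Y.neg_mem (hφrow _ (hρW i) l)
    · have : (fun i => t i j l) = ∑ m, (Θ (eb k d m) j l) • (fun i => ρ i m) - z l • (fun i => ρ i j)
          + z j • (fun i => ρ i l) := by
        funext i
        simp only [htdef, hφdef, Pi.add_apply, Pi.sub_apply, Finset.sum_apply, Pi.smul_apply,
          smul_eq_mul]
        rw [hΘexp (ρ i)]
        simp only [Finset.sum_apply, Pi.smul_apply, smul_eq_mul]
        congr 1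
        congr 1
        · exact Finset.sum_congr rfl fun m _ => mul_comm _ _
        · exact mul_comm _ _
      rw [this]
      exact Y.add_mem (Y.sub_mem (Y.sum_mem fun m _ => Y.smul_mem _ (hcolY m))
        (Y.smul_mem _ (hcolY j))) (Y.smul_mem _ (hcolY l))
  have htanti : ∀ i j l, t i j l = - t i l j := fun i j l => hφanti _ (hρW i) j l
  have htE : ∑ i, ⁅E (eb k d i), E2 E (t i)⁆ = 0 := by
    have h3 : ∀ i, E2 E (t i) = ⁅E z, E (ρ i)⁆ + ⁅E z, E (ρ i)⁆ := by
      intro i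
      have h4 : t i = Θ (ρ i) - tens (ρ i) z + tens z (ρ i) := by
        funext j l
        rfl
      rw [h4, map_add, map_sub, E2_tens, E2_tens, (hΘ _ (hρW i)).1.2, zero_sub, lie_skew]
    have h5 : ∀ i, ⁅E (eb k d i), E2 E (t i)⁆ =
        ∑ j, ρ i j • ⁅E (eb k d i), ⁅E z, E (eb k d j)⁆⁆ +
        ∑ j, ρ i j • ⁅E (eb k d i), ⁅E z, E (eb k d j)⁆⁆ := by
      intro i
      rw [h3, lie_add]
      have h6 : ⁅E (eb k d i), ⁅E z, E (ρ i)⁆⁆ = ∑ j, ρ i j • ⁅E (eb k d i), ⁅E z, E (eb k d j)⁆⁆ := by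
        rw [E_sum E (ρ i), lie_sum, lie_sum]
        refine Finset.sum_congr rfl fun j _ => ?_
        rw [lie_smul, lie_smul]
      rw [h6]
    simp only [h5, Finset.sum_add_distrib]
    exact jac_zero E (E z) ρ hρR
  obtain ⟨α, β, hαβ, hα1, hα2, hβY, hβR⟩ := hCY t htY htanti htE
  have hαcyc : ∀ i j l, α i j l = α l i j := by
    intro i j l
    rw [hα1 i j l, hα2 i l j, neg_neg]
  have htβ : ∀ i j l, t i j l - t l i j = β i j l - β l i j := by
    intro i j l
    rw [hαβ]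
    simp only [Pi.add_apply]
    rw [hαcyc i j l]
    ring
  -- final decomposition
  rw [Submodule.mem_sup]
  refine ⟨fun i j l => (σ i j l - ρ i j * z l) - Θ (ρ l) i j + β l i j, ?_,
    fun i j l => (κ i j l + Θ (ρ i) j l) + z i * ρ j l - β i j l, ?_, ?_⟩
  · constructor
    · intro i j
      have g1 : (fun l => σ i j l - ρ i j * z l) ∈ Y := decomp hζ hζ1 (hσY i j)
      have g2 : (fun l => Θ (ρ l) i j) ∈ Y := by
        have : (fun l => Θ (ρ l) i j) = ∑ m, (Θ (eb k d m) i j) • (fun l => ρ l m) := by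
          funext l
          rw [hΘexp (ρ l)]
          simp only [Finset.sum_apply, Pi.smul_apply, smul_eq_mul]
          exact Finset.sum_congr rfl fun m _ => mul_comm _ _
        rw [this]
        exact Y.sum_mem fun m _ => Y.smul_mem _ (hcolY m)
      have g3 : (fun l => β l i j) ∈ Y := hβY.2.2 i j
      exact Y.add_mem (Y.sub_mem g1 g2) g3
    · intro l
      have g1 : (fun i j => σ i j l - ρ i j * z l) ∈ RR E := by
        have : (fun i j => σ i j l - ρ i j * z l) = (fun i j => σ i j l) - z l • ρ := by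
          funext i j
          simp [mul_comm]
        rw [this]
        exact Submodule.sub_mem _ (hσR l) (Submodule.smul_mem _ _ hρR)
      have g2 : Θ (ρ l) ∈ RR E := (hΘ _ (hρW l)).1
      exact Submodule.add_mem _ (Submodule.sub_mem _ g1 g2) (hβR l)
  · constructor
    · intro i j
      have g1 : κ i j + Θ (ρ i) j ∈ Y := by
        have h3 : κ i j + Θ (ρ i) j ∈ Y ⊔ k ∙ z :=
          Submodule.add_mem _ (hκY i j) ((hΘ _ (hρW i)).2.1 j)
        have h4 := decomp hζ hζ1 h3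
        have h5 : ∑ l, (κ i j + Θ (ρ i) j) l * ζ l = 0 := by
          have h6 : ∑ l, Θ (ρ i) j l * ζ l = ρ i j := congrFun (hΘ _ (hρW i)).2.2 j
          simp only [Pi.add_apply, add_mul, Finset.sum_add_distrib]
          rw [hκρ, h6]
          ring
        rw [h5, zero_smul, sub_zero] at h4
        exact h4
      have g2 : (fun l => z i * ρ j l) ∈ Y := Y.smul_mem (z i) (hWY _ (hρW j))
      have g3 : β i j ∈ Y := hβY.1 i j
      exact Y.sub_mem (Y.add_mem g1 g2) g3
    · intro i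
      have g1 : κ i + Θ (ρ i) ∈ RR E := Submodule.add_mem _ (hκR i) (hΘ _ (hρW i)).1
      have g2 : (fun j l => z i * ρ j l) ∈ RR E := Submodule.smul_mem _ (z i) hρR
      exact Submodule.sub_mem _ (Submodule.add_mem _ g1 g2) (hβR i)
  · funext i j l
    have h3 := htβ i j l
    simp only [htdef, hφdef] at h3
    have h4 := hρR.1 j l
    have h5 := hρR.1 i l
    simp only [Pi.add_apply]
    linear_combination h3 + z i * h4 - z j * h5

lemma star_all (h2 : (2 : k) ≠ 0) (E : (Fin d → k) →ₗ[k] L) (hCY : ∀ Y, CY E Y) :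
    ∀ (n : ℕ) (Y : Submodule k (Fin d → k)), finrank k Y + n = d → Star (RR E) Y := by
  intro n
  induction n with
  | zero =>
    intro Y hY
    have : Y = ⊤ := by
      apply Submodule.eq_top_of_finrank_eq
      simp at hY ⊢
      exact hY
    rw [this]
    exact Star_top _
  | succ n ih =>
    intro Y hY
    have hne : ∃ z, z ∉ Y := by
      by_contra hcon
      push Not at hcon
      have : Y = ⊤ := eq_top_iff.2 fun x _ => hcon x
      rw [this] at hY
      simp at hY
    obtain ⟨z, hz⟩ := hne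
    have hf : finrank k (Y ⊔ k ∙ z : Submodule k (Fin d → k)) = finrank k Y + 1 := by
      have hz0 : z ≠ 0 := by
        rintro rfl
        exact hz Y.zero_mem
      have h4 := Submodule.finrank_sup_add_finrank_inf_eq Y (k ∙ z)
      have h5 : Y ⊓ k ∙ z = ⊥ := by
        rw [Submodule.eq_bot_iff]
        rintro x ⟨hx1, hx2⟩
        rw [SetLike.mem_coe, Submodule.mem_span_singleton] at hx2
        obtain ⟨t, rfl⟩ := hx2
        by_cases ht : t = 0
        · rw [ht, zero_smul]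
        · exfalso
          apply hz
          have := Y.smul_mem t⁻¹ hx1
          rwa [smul_smul, inv_mul_cancel₀ ht, one_smul] at this
      rw [h5, finrank_bot, finrank_span_singleton hz0] at h4
      omega
    exact star_step h2 E Y z hz (ih _ (by omega)) (hCY Y)

lemma star_any (h2 : (2 : k) ≠ 0) (E : (Fin d → k) →ₗ[k] L) (hCY : ∀ Y, CY E Y)
    (Y : Submodule k (Fin d → k)) : Star (RR E) Y := by
  have : finrank k Y ≤ d := by
    have := Submodule.finrank_le Y
    simpa using this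
  exact star_all h2 E hCY (d - finrank k Y) Y (by omega)

end Pool.Agent.Helper83.BK
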