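import Pool.Agent.Helper83.BK.Betti
import Pool.Agent.Helper83.BK.StarLie

set_option autoImplicit false

namespace Pool.Agent.Helper83.BK

open CategoryTheory CategoryTheory.Abelian Submodule Module

universe u

variable {k : Type u} [Field k] {d : ℕ} {A : Type u} [Ring A] [Algebra k A]
  {ι : (Fin d → k) →ₗ[k] A} {R : Submodule k (Fin d → Fin d → k)}

lemma e1_symm (x y : Fin d → k) : e1 k d x y = e1 k d y x := by
  rw [e1_apply, e1_apply]
  exact Finset.sum_congr rfl fun i _ => mul_comm _ _

lemma e2_symm (x y : Fin d → Fin d → k) : e2 k d x y = e2 k d y x := by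
  rw [e2_apply, e2_apply]
  exact Finset.sum_congr rfl fun i _ => Finset.sum_congr rfl fun j _ => mul_comm _ _

/-- the quadratic dual is good -/
lemma good_QA (h2 : (2 : k) ≠ 0) (hanti : ∀ r ∈ R, ∀ i j, r i j = - r j i)
    (hstar : ∀ Y, Star R Y) : Good (qi (per (e2 k d) R)) (per (e2 k d) R) where
  rel := (isQuad_QA _).rel
  top := (isQuad_QA _).top
  aug := (isQuad_QA _).aug
  diag := by
    intro u
    rw [mem_per]
    intro r hr
    apply two_cancel h2
    have e : e2 k d (tens u u) r = -e2 k d (tens u u) r := by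
      conv_lhs => rw [e2_apply, Finset.sum_comm]
      rw [e2_apply, ← Finset.sum_neg_distrib]
      refine Finset.sum_congr rfl fun i _ => ?_
      rw [← Finset.sum_neg_distrib]
      refine Finset.sum_congr rfl fun j _ => ?_
      rw [hanti r hr j i]
      simp only [tens]
      ring
    nth_rewrite 2 [e]
    ring
  deg := by
    intro J x hx hab
    have h1 : Star (per (e2 k d) R) (per (e1 k d) (per (e1 k d) J)) := (hstar (per (e1 k d) J)).dual
    rw [per_per (e1 k d) e1_symm] at h1
    exact h1.deg x hx hab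

lemma zz_of_ext (h : IsQuad ι R) (hanti : ∀ r ∈ R, ∀ i j, r i j = - r j i)
    (ε : A →ₐ[k] k) (hε : ∀ v, ε (ι v) = 0) (n : ℕ)
    (hExt : Subsingleton (Ext (ModuleCat.of A (Triv ε)) (ModuleCat.of A (Triv ε)) (n + 1))) :
    ZZ (qi (per (e2 k d) R)) (n + 1) ⊥ := by
  obtain ⟨π, hπ, hπι⟩ := h.aug' ε hε
  intro l hl
  have hcan : ∀ (M : Type u) [AddCommGroup M] [Module k M]
      (Φ : QA (per (e2 k d) R) →ₗ[k] M),
      ∑ i, ∑ j, TensorProduct.tmul k (ι (eb k d i) * ι (eb k d j))
        (Φ (qi (per (e2 k d) R) (eb k d j) * qi (per (e2 k d) R) (eb k d i))) = 0 := by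
    intro M _ _ Φ
    refine can_zero ι (qi (per (e2 k d) R)) R (per (e2 k d) R) ?_ ?_ ?_ M Φ
    · intro r hr
      rw [ev2_eq]
      exact h.rel r hr
    · intro s hs
      rw [ev2_eq]
      exact (isQuad_QA _).rel s hs
    · intro s hs
      rw [mem_per]
      intro r hr
      have := hs r hr
      rw [e2_apply, Finset.sum_comm]
      rw [← neg_eq_zero, ← Finset.sum_neg_distrib]
      rw [← this]
      refine Finset.sum_congr rfl fun i _ => ?_
      rw [← Finset.sum_neg_distrib]
      refine Finset.sum_congr rfl fun j _ => ?_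
      rw [hanti r hr i j]
      ring
  letI : Module k (Triv ε) := Module.restrictScalars k A (Triv ε)
  haveI : IsScalarTower k A (Triv ε) := IsScalarTower.restrictScalars k A (Triv ε)
  have hk : ∀ (c : k) (t : Triv ε), toK ε (c • t) = c * toK ε t := by
    intro c t
    exact ksmul ε c t
  let κ : Module.Dual k (QA (per (e2 k d) R)) →ₗ[k] Triv ε :=
    { toFun := fun ψ => (ψ 1 : k)
      map_add' := fun _ _ => rfl
      map_smul' := fun c ψ => by
        apply toK_inj ε
        exact (hk c _).symm }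
  let G : Triv ε →ₗ[k] k :=
    { toFun := fun t => toK ε t
      map_add' := fun _ _ => rfl
      map_smul' := fun c t => hk c t }
  have hv := vanish ι (qi (per (e2 k d) R)) ε π hε hπ hπι hcan n (Triv ε) κ (by
    intro ψ
    refine Finset.sum_eq_zero fun i _ => ?_
    apply toK_inj ε
    rw [toK_smul, hε, zero_mul]
    rfl) G (fun a t => rfl) 1 (fun ψ => rfl) hExt l hl
  rw [one_mul] at hv
  rw [hv]
  exact Submodule.zero_mem _

/-- the inequality in terms of `Ext` -/
theorem ext_ineq (h2 : (2 : k) ≠ 0) (h : IsQuad ι R) (hanti : ∀ r ∈ R, ∀ i j, r i j = - r j i)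
    (hstar : ∀ Y, Star R Y) (ε : A →ₐ[k] k) (hε : ∀ v, ε (ι v) = 0) (n : ℕ)
    (hExt : Subsingleton (Ext (ModuleCat.of A (Triv ε)) (ModuleCat.of A (Triv ε)) (n + 2))) :
    2 * (n + 1) * Module.finrank k (Ext (ModuleCat.of A (Triv ε)) (ModuleCat.of A (Triv ε)) 2) ≤
      n * (Module.finrank k (Ext (ModuleCat.of A (Triv ε)) (ModuleCat.of A (Triv ε)) 1)) ^ 2 := by
  have h1 := zz_of_ext h hanti ε hε (n + 1) hExt
  have h3 := main_ineq (good_QA h2 hanti hstar) n ⊥ h1
  rw [finrank_ext_one h ε hε, finrank_ext_two h ε hε]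
  have h4 : aa (per (e2 k d) R) ⊥ + finrank k R = d * d := by
    unfold aa
    have : (VJ (⊥ : Submodule k (Fin d → k))) = ⊥ := by
      rw [eq_bot_iff]
      intro q hq
      rw [Submodule.mem_bot]
      funext i
      exact (Submodule.mem_bot k).1 (hq i)
    rw [this, sup_bot_eq, finrank_per, finrank_T2]
  rw [finrank_bot] at h3
  zify at h4 ⊢
  have h5 : (d : ℤ) * d - aa (per (e2 k d) R) ⊥ = finrank k R := by linarith
  rw [h5] at h3
  simpa using h3

end Pool.Agent.Helper83.BK
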