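import Pool.Agent.Helper83.BK.Cubic

set_option autoImplicit false

namespace Pool.Agent.Helper83.BK

open Submodule Module

universe u v w

variable {k : Type u} [Field k] {d : ℕ} {L : Type v} [LieRing L] [LieAlgebra k L]

/-- alternation of a decomposable tensor, halved -/
def altT (a b c : Fin d → k) : Fin d → Fin d → Fin d → k := fun i =>
  (2 : k)⁻¹ • (a i • (tens b c - tens c b) + b i • (tens c a - tens a c) +
    c i • (tens a b - tens b a))

lemma altT_apply (a b c : Fin d → k) (i j l : Fin d) : altT a b c i j l =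
    (2 : k)⁻¹ * (a i * (b j * c l - c j * b l) + b i * (c j * a l - a j * c l) +
      c i * (a j * b l - b j * a l)) := rfl

lemma jac_alt (h2 : (2 : k) ≠ 0) (E : (Fin d → k) →ₗ[k] L) (Y : Submodule k (Fin d → k))
    (a b c : Fin d → k) (ha : a ∈ Y) (hb : b ∈ Y) (hc : c ∈ Y) :
    (∀ i j l, altT a b c i j l = - altT a b c i l j) ∧
    (∀ i j l, altT a b c i j l = - altT a b c j i l) ∧
    InY Y (altT a b c) ∧ ∀ i, E2 E (altT a b c i) = jac E a b c i := by
  refine ⟨fun i j l => ?_, fun i j l => ?_, ⟨fun i j => ?_, fun i l => ?_, fun j l => ?_⟩,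
    fun i => ?_⟩
  · rw [altT_apply, altT_apply]; ring
  · rw [altT_apply, altT_apply]; ring
  · have : altT a b c i j = (2 : k)⁻¹ • (a i • (b j • c - c j • b) + b i • (c j • a - a j • c) +
      c i • (a j • b - b j • a)) := by
      funext l
      rw [altT_apply]
      rfl
    rw [this]
    exact Y.smul_mem _ (Y.add_mem (Y.add_mem (Y.smul_mem _ (Y.sub_mem (Y.smul_mem _ hc)
      (Y.smul_mem _ hb))) (Y.smul_mem _ (Y.sub_mem (Y.smul_mem _ ha) (Y.smul_mem _ hc))))
      (Y.smul_mem _ (Y.sub_mem (Y.smul_mem _ hb) (Y.smul_mem _ ha))))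
  · have : (fun j => altT a b c i j l) = (2 : k)⁻¹ • (a i • (c l • b - b l • c) +
      b i • (a l • c - c l • a) + c i • (b l • a - a l • b)) := by
      funext j
      rw [altT_apply]
      simp only [Pi.smul_apply, Pi.add_apply, Pi.sub_apply, smul_eq_mul]
      ring
    rw [this]
    exact Y.smul_mem _ (Y.add_mem (Y.add_mem (Y.smul_mem _ (Y.sub_mem (Y.smul_mem _ hb)
      (Y.smul_mem _ hc))) (Y.smul_mem _ (Y.sub_mem (Y.smul_mem _ hc) (Y.smul_mem _ ha))))
      (Y.smul_mem _ (Y.sub_mem (Y.smul_mem _ ha) (Y.smul_mem _ hb))))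
  · have : (fun i => altT a b c i j l) = (2 : k)⁻¹ • ((b j * c l - c j * b l) • a +
      (c j * a l - a j * c l) • b + (a j * b l - b j * a l) • c) := by
      funext i
      rw [altT_apply]
      simp only [Pi.smul_apply, Pi.add_apply, smul_eq_mul]
      ring
    rw [this]
    exact Y.smul_mem _ (Y.add_mem (Y.add_mem (Y.smul_mem _ ha) (Y.smul_mem _ hb))
      (Y.smul_mem _ hc))
  · unfold altT jac
    rw [map_smul, map_add, map_add, map_smul, map_smul, map_smul, map_sub, map_sub, map_sub]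
    simp only [E2_tens]
    rw [← lie_skew (E b) (E c), ← lie_skew (E a) (E c), ← lie_skew (E a) (E b)]
    simp only [smul_neg, neg_sub, sub_neg_eq_add, neg_neg]
    rw [inv_smul_eq_iff₀ h2, two_smul]
    simp only [smul_add, smul_sub, smul_neg]
    abel

lemma Jac_alt (h2 : (2 : k) ≠ 0) (E : (Fin d → k) →ₗ[k] L) (Y : Submodule k (Fin d → k))
    (z : Fin d → L) (hz : z ∈ Jac E Y) : ∃ α : Fin d → Fin d → Fin d → k,
    (∀ i j l, α i j l = - α i l j) ∧ (∀ i j l, α i j l = - α j i l) ∧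
    InY Y α ∧ ∀ i, E2 E (α i) = z i := by
  unfold Jac at hz
  induction hz using Submodule.span_induction with
  | mem z hz =>
    obtain ⟨a, ha, b, hb, c, hc, rfl⟩ := hz
    exact ⟨altT a b c, jac_alt h2 E Y a b c ha hb hc⟩
  | zero =>
    refine ⟨0, by simp, by simp, ⟨fun i j => Y.zero_mem, fun i j => Y.zero_mem,
      fun i j => Y.zero_mem⟩, fun i => ?_⟩
    simp
  | add x y _ _ hx hy =>
    obtain ⟨α, h1, h2, h3, h4⟩ := hx
    obtain ⟨β, g1, g2, g3, g4⟩ := hy
    refine ⟨α + β, fun i j l => ?_, fun i j l => ?_, ⟨fun i j => ?_, fun i j => ?_,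
      fun i j => ?_⟩, fun i => ?_⟩
    · simp only [Pi.add_apply]; rw [h1, g1]; ring
    · simp only [Pi.add_apply]; rw [h2, g2]; ring
    · exact Y.add_mem (h3.1 i j) (g3.1 i j)
    · exact Y.add_mem (h3.2.1 i j) (g3.2.1 i j)
    · exact Y.add_mem (h3.2.2 i j) (g3.2.2 i j)
    · rw [Pi.add_apply, map_add, h4, g4]; rfl
  | smul c x _ hx =>
    obtain ⟨α, h1, h2, h3, h4⟩ := hx
    refine ⟨c • α, fun i j l => ?_, fun i j l => ?_, ⟨fun i j => ?_, fun i j => ?_,
      fun i j => ?_⟩, fun i => ?_⟩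
    · simp only [Pi.smul_apply]; rw [h1]; simp
    · simp only [Pi.smul_apply]; rw [h2]; simp
    · exact Y.smul_mem c (h3.1 i j)
    · exact Y.smul_mem c (h3.2.1 i j)
    · exact Y.smul_mem c (h3.2.2 i j)
    · rw [Pi.smul_apply, map_smul, h4]; rfl

/-- third component -/
def n3 (E : (Fin d → k) →ₗ[k] L) (Y : Submodule k (Fin d → k)) :
    NN E Y →ₗ[k] (Fin d → L) ⧸ Jac E Y where
  toFun p := p.2.2
  map_add' _ _ := rfl
  map_smul' _ _ := rfl

lemma n3_mk {E : (Fin d → k) →ₗ[k] L} {Y : Submodule k (Fin d → k)} (y : Y) (x : L)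
    (q : (Fin d → L) ⧸ Jac E Y) : n3 E Y (mkN E Y y x q) = q := rfl

lemma triLin_lie {M : Type w} [LieRing M] [LieAlgebra k M] (F : (Fin d → k) →ₗ[k] M) :
    TriLin (fun a b c => ⁅F a, ⁅F b, F c⁆⁆) where
  l1 b c := ⟨fun x y => by simp, fun c x => by simp⟩
  l2 b c := ⟨fun x y => by simp, fun c x => by simp⟩
  l3 b c := ⟨fun x y => by simp, fun c x => by simp⟩

lemma TriLin.comp {W : Type*} {W' : Type*} [AddCommGroup W] [Module k W] [AddCommGroup W']
    [Module k W'] {β : (Fin d → k) → (Fin d → k) → (Fin d → k) → W} (hβ : TriLin β)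
    (g : W →ₗ[k] W') : TriLin (fun a b c => g (β a b c)) where
  l1 b c := ⟨fun x y => by rw [(hβ.l1 b c).1, map_add], fun r x => by rw [(hβ.l1 b c).2, map_smul]⟩
  l2 b c := ⟨fun x y => by rw [(hβ.l2 b c).1, map_add], fun r x => by rw [(hβ.l2 b c).2, map_smul]⟩
  l3 b c := ⟨fun x y => by rw [(hβ.l3 b c).1, map_add], fun r x => by rw [(hβ.l3 b c).2, map_smul]⟩

lemma triLin_yx (E : (Fin d → k) →ₗ[k] L) :
    TriLin (fun a b c => yx a ⁅E b, E c⁆) where
  l1 b c := ⟨fun x y => yx_add_left _ _ _, fun c x => yx_smul_left _ _ _⟩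
  l2 b c := ⟨fun x y => by rw [map_add, add_lie, yx_add_right],
    fun r x => by rw [map_smul, smul_lie, yx_smul_right]⟩
  l3 b c := ⟨fun x y => by rw [map_add, lie_add, yx_add_right],
    fun r x => by rw [map_smul, lie_smul, yx_smul_right]⟩

theorem CY_of_hom (h2 : (2 : k) ≠ 0) (E : (Fin d → k) →ₗ[k] L) (Y : Submodule k (Fin d → k))
    {M : Type w} [LieRing M] [LieAlgebra k M] (inc : M →ₗ⁅k⁆ L) (hinc : Function.Injective inc)
    (F : (Fin d → k) →ₗ[k] M) (hF : ∀ y ∈ Y, inc (F y) = E y) (θ : M →ₗ⁅k⁆ NN E Y)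
    (hθ : ∀ y : Y, θ (F y) = mkN E Y y 0 0) : CY E Y := by
  intro t ht ht2 hE
  have key0 : ∑ i, ∑ j, ∑ l, t i j l • ⁅F (eb k d i), ⁅F (eb k d j), F (eb k d l)⁆⁆ = 0 := by
    apply hinc
    simp only [map_zero, map_sum, map_smul, LieHom.map_lie]
    have h3 := tri_agree ht (triLin_lie (inc.toLinearMap ∘ₗ F)) (triLin_lie E) (by
      intro a ha b hb c hc
      simp only [LinearMap.comp_apply, LieHom.coe_toLinearMap]
      rw [hF a ha, hF b hb, hF c hc])
    simp only [LinearMap.comp_apply, LieHom.coe_toLinearMap] at h3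
    rw [h3, ← hE]
    refine Finset.sum_congr rfl fun i _ => ?_
    rw [E2_apply, lie_sum]
    refine Finset.sum_congr rfl fun j _ => ?_
    rw [lie_sum]
    refine Finset.sum_congr rfl fun l _ => ?_
    rw [lie_smul]
  have key1 := congrArg (fun x => n3 E Y (θ x)) key0
  simp only [map_zero, map_sum, map_smul, LieHom.map_lie] at key1
  have h3 := tri_agree ht ((triLin_lie (θ.toLinearMap ∘ₗ F)).comp (n3 E Y))
    ((triLin_yx E).comp (Jac E Y).mkQ) (by
      intro a ha b hb c hc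
      simp only [LinearMap.comp_apply, LieHom.coe_toLinearMap]
      rw [show θ (F a) = mkN E Y ⟨a, ha⟩ 0 0 from hθ ⟨a, ha⟩,
        show θ (F b) = mkN E Y ⟨b, hb⟩ 0 0 from hθ ⟨b, hb⟩,
        show θ (F c) = mkN E Y ⟨c, hc⟩ 0 0 from hθ ⟨c, hc⟩]
      rw [br_def _ ⁅_, _⁆, br_def (mkN E Y ⟨b, hb⟩ 0 0)]
      simp only [n1_mk, n2_mk, n3_mk, Submodule.coe_zero, map_zero, lie_zero, zero_lie,
        yx_zero_left, sub_zero])
  simp only [LinearMap.comp_apply, LieHom.coe_toLinearMap] at h3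
  rw [h3] at key1
  have h4 : (fun n => E2 E (t n)) ∈ Jac E Y := by
    rw [← Submodule.Quotient.mk_eq_zero, ← Submodule.mkQ_apply, ← key1]
    simp only [← map_smul, ← map_sum]
    congr 1
    funext n
    simp only [Finset.sum_apply, Pi.smul_apply, yx]
    have h5 : ∀ i j l, t i j l • eb k d i n • ⁅E (eb k d j), E (eb k d l)⁆ =
        if i = n then t i j l • ⁅E (eb k d j), E (eb k d l)⁆ else 0 := by
      intro i j l
      by_cases hi : i = n
      · subst hi; simp [eb]
      · have : eb k d i n = 0 := by simp [eb, Ne.symm hi]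
        rw [this]; simp [hi]
    simp only [h5]
    rw [Finset.sum_eq_single n]
    · simp only [if_true]
      rfl
    · intro b _ hb
      simp [hb]
    · intro h
      exact absurd (Finset.mem_univ n) h
  obtain ⟨α, a1, a2, a3, a4⟩ := Jac_alt h2 E Y _ h4
  refine ⟨α, t - α, by abel, a1, a2, ⟨fun i j => Y.sub_mem (ht.1 i j) (a3.1 i j),
    fun i l => Y.sub_mem (ht.2.1 i l) (a3.2.1 i l),
    fun j l => Y.sub_mem (ht.2.2 j l) (a3.2.2 j l)⟩, fun i => ⟨fun j l => ?_, ?_⟩⟩
  · simp only [Pi.sub_apply]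
    rw [ht2, a1]
    ring
  · rw [Pi.sub_apply, map_sub, a4, sub_self]

end Pool.Agent.Helper83.BK
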