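import Pool.Agent.Helper59.BKUea
import Pool.Agent.Helper83.BK.CubicMain

set_option autoImplicit false

namespace Pool.Agent.Helper83.BK

open Submodule Module Pool.Agent.Helper59.BK

universe u v

variable {k : Type u} [Field k] {L : Type v} [LieRing L] [LieAlgebra k L]
  {𝓛 : ℕ → Submodule k L}

/-- projection on the degree one part -/
lemma exists_pr1 (h : IsGradedLie 𝓛) :
    ∃ p : L →ₗ[k] L, (∀ x ∈ 𝓛 1, p x = x) ∧ ∀ a b : L, p ⁅a, b⁆ = 0 := by
  classical
  letI := h.internal.chooseDecomposition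
  let p : L →ₗ[k] L := (𝓛 1).subtype ∘ₗ (DirectSum.component k ℕ (fun i => 𝓛 i) 1) ∘ₗ
    (DirectSum.decomposeLinearEquiv 𝓛).toLinearMap
  have hp : ∀ x, p x = (DirectSum.decompose 𝓛 x 1 : L) := fun x => rfl
  refine ⟨p, fun x hx => ?_, fun a b => ?_⟩
  · rw [hp, DirectSum.decompose_of_mem_same 𝓛 hx]
  · have htop := h.internal.submodule_iSup_eq_top
    have ha : a ∈ ⨆ i, 𝓛 i := by rw [htop]; exact Submodule.mem_top
    have hb : b ∈ ⨆ i, 𝓛 i := by rw [htop]; exact Submodule.mem_top
    induction ha using Submodule.iSup_induction' with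
    | mem i x hx =>
      induction hb using Submodule.iSup_induction' with
      | mem j y hy =>
        by_cases hi : i = 0
        · subst hi
          rw [h.zero, Submodule.mem_bot] at hx
          rw [hx, zero_lie, map_zero]
        by_cases hj : j = 0
        · subst hj
          rw [h.zero, Submodule.mem_bot] at hy
          rw [hy, lie_zero, map_zero]
        rw [hp, DirectSum.decompose_of_mem_ne 𝓛 (h.lie_mem hx hy) (by omega)]
      | zero => rw [lie_zero, map_zero]
      | add y z _ _ hy hz => rw [lie_add, map_add, hy, hz, add_zero]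
    | zero => rw [zero_lie, map_zero]
    | add y z _ _ hy hz => rw [add_lie, map_add, hy, hz, add_zero]

/-- vectors with degree one part in `W` -/
def degOne (p : L →ₗ[k] L) (hp : ∀ a b : L, p ⁅a, b⁆ = 0) (W : Submodule k L) :
    LieSubalgebra k L :=
  { W.comap p with
    lie_mem' := by
      intro a b _ _
      show p ⁅a, b⁆ ∈ W
      rw [hp]
      exact W.zero_mem }

section

variable {d : ℕ} (E : (Fin d → k) →ₗ[k] L)

/-- data extracted from quadraticity of the subalgebra generated by `E Y` -/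
lemma extract (h : IsGradedLie 𝓛) (hE : ∀ v, E v ∈ 𝓛 1) (Y : Submodule k (Fin d → k))
    (M : LieSubalgebra k L) (hM : M = LieSubalgebra.lieSpan k L (E '' (Y : Set (Fin d → k))))
    {m : ℕ} (x : Fin m → M) (hx : ∀ i, (x i : L) ∈ 𝓛 1)
    (hsurj : Function.Surjective (FreeLieAlgebra.lift k x)) :
    ∃ y : Fin m → Y, (∀ i, (x i : L) = E (y i)) ∧
      ∀ z ∈ Y, ∃ c : Fin m → k, E z = ∑ i, c i • (x i : L) := by
  obtain ⟨p, hp1, hp2⟩ := exists_pr1 h
  have h1 : M ≤ degOne p hp2 (Y.map E) := by
    rw [hM, LieSubalgebra.lieSpan_le]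
    rintro _ ⟨v, hv, rfl⟩
    show p (E v) ∈ Y.map E
    rw [hp1 _ (hE v)]
    exact Submodule.mem_map_of_mem hv
  have h2 : ∀ i, ∃ y : Y, (x i : L) = E y := by
    intro i
    have h3 : p (x i : L) ∈ Y.map E := h1 (x i).2
    rw [hp1 _ (hx i)] at h3
    obtain ⟨y, hy, hy2⟩ := h3
    exact ⟨⟨y, hy⟩, hy2.symm⟩
  choose y hy using h2
  refine ⟨y, hy, fun z hz => ?_⟩
  have h3 : ∀ a : M, a ∈ (degOne p hp2 (Submodule.span k (Set.range fun i => (x i : L)))).comap
      M.incl := by
    intro a
    refine mem_of_gens x hsurj _ (fun i => ?_) a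
    show p (x i : L) ∈ Submodule.span k (Set.range fun i => (x i : L))
    rw [hp1 _ (hx i)]
    exact Submodule.subset_span ⟨i, rfl⟩
  have h4 : E z ∈ M := by
    rw [hM]
    exact LieSubalgebra.subset_lieSpan ⟨z, hz, rfl⟩
  have h5 : p (E z) ∈ Submodule.span k (Set.range fun i => (x i : L)) := h3 ⟨E z, h4⟩
  rw [hp1 _ (hE z), Submodule.mem_span_range_iff_exists_fun] at h5
  obtain ⟨c, hc⟩ := h5
  exact ⟨c, hc.symm⟩

theorem CY_of_BK (h2 : (2 : k) ≠ 0) (h : IsGradedLie 𝓛) (hBK : IsBlochKato 𝓛)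
    (hE : ∀ v, E v ∈ 𝓛 1) (hinj : Function.Injective E) (Y : Submodule k (Fin d → k)) :
    CY E Y := by
  set M := LieSubalgebra.lieSpan k L (E '' (Y : Set (Fin d → k))) with hM
  obtain ⟨m, x, hx, hsurj, S, hS, hker⟩ := hBK.2 M ⟨_, by
    rintro _ ⟨v, hv, rfl⟩
    exact hE v, hM⟩
  obtain ⟨y, hy, hyc⟩ := extract E h hE Y M hM x hx hsurj
  obtain ⟨P, hP⟩ := exists_proj Y
  have hmem : ∀ v : Y, E v ∈ M := fun v => by
    rw [hM]
    exact LieSubalgebra.subset_lieSpan ⟨v, v.2, rfl⟩
  let F : (Fin d → k) →ₗ[k] M :=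
    { toFun := fun v => ⟨E (P v), hmem (P v)⟩
      map_add' := fun a b => by
        apply Subtype.ext
        show E (P (a + b)) = E (P a) + E (P b)
        rw [map_add, Submodule.coe_add, map_add]
      map_smul' := fun c a => by
        apply Subtype.ext
        show E (P (c • a)) = c • E (P a)
        rw [map_smul, Submodule.coe_smul, map_smul] }
  have hspan : ∀ s ∈ Submodule.span k {r : FreeLieAlgebra k (Fin m) |
        ∃ i j : Fin m, r = ⁅FreeLieAlgebra.of k i, FreeLieAlgebra.of k j⁆},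
      FreeLieAlgebra.lift k (fun i => mkN E Y (y i) 0 0) s =
        mkN E Y 0 (FreeLieAlgebra.lift k x s : M) 0 := by
    intro s hs
    induction hs using Submodule.span_induction with
    | mem s hs =>
      obtain ⟨i, j, rfl⟩ := hs
      rw [LieHom.map_lie, LieHom.map_lie, FreeLieAlgebra.lift_of_apply,
        FreeLieAlgebra.lift_of_apply, FreeLieAlgebra.lift_of_apply,
        FreeLieAlgebra.lift_of_apply, br_def, LieSubalgebra.coe_bracket, hy i, hy j]
      simp only [n1_mk, n2_mk, yx_zero_right, sub_zero, map_zero]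
    | zero => simp only [map_zero]; rfl
    | add a b _ _ ha hb =>
      rw [map_add, map_add, ha, hb, mkN_add]
      simp
    | smul c a _ ha =>
      rw [map_smul, map_smul, ha, mkN_smul]
      simp
  obtain ⟨θ, hθ⟩ := exists_lieHom x hsurj S hker (fun i => mkN E Y (y i) 0 0) (by
    intro s hs
    rw [hspan s (hS hs)]
    have : s ∈ (FreeLieAlgebra.lift k x).ker := by
      rw [hker]
      exact LieSubmodule.subset_lieSpan hs
    rw [LieHom.mem_ker.1 this]
    rfl)
  refine CY_of_hom h2 E Y M.incl Subtype.val_injective F (fun z hz => ?_) θ (fun z => ?_)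
  · show E (P z) = E z
    rw [show P z = (⟨z, hz⟩ : Y) from hP ⟨z, hz⟩]
  · obtain ⟨c, hc⟩ := hyc z z.2
    have h3 : F z = ∑ i, c i • x i := by
      apply Subtype.ext
      show E (P z) = _
      rw [hP z, hc]
      simp
    have h4 : (z : Fin d → k) = ∑ i, c i • (y i : Fin d → k) := by
      apply hinj
      rw [hc, map_sum]
      simp only [map_smul, hy]
    have h5 : z = ∑ i, c i • y i := by
      apply Subtype.ext
      rw [h4]
      simp
    rw [h3, map_sum]
    simp only [map_smul, hθ, mkN_smul, smul_zero]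
    let J : Y →ₗ[k] NN E Y :=
      { toFun := fun w => mkN E Y w 0 0
        map_add' := fun a b => by rw [mkN_add, add_zero, add_zero]
        map_smul' := fun c a => by rw [RingHom.id_apply, mkN_smul, smul_zero, smul_zero] }
    show ∑ i, J (c i • y i) = J z
    rw [← map_sum, ← h5]

end

section

variable {L : Type u} [LieRing L] [LieAlgebra k L] {𝓛 : ℕ → Submodule k L} {d : ℕ}

/-- generators of a presentation with relations in degree two are linearly independent -/
lemma Emap_injective (x : Fin d → L) (S : Set (FreeLieAlgebra k (Fin d)))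
    (hS : S ⊆ (Submodule.span k {r : FreeLieAlgebra k (Fin d) |
        ∃ i j : Fin d, r = ⁅FreeLieAlgebra.of k i, FreeLieAlgebra.of k j⁆} :
          Set (FreeLieAlgebra k (Fin d))))
    (hker : (FreeLieAlgebra.lift k x).ker = LieSubmodule.lieSpan k (FreeLieAlgebra k (Fin d)) S) :
    Function.Injective (Emap (k := k) x) := by
  rw [injective_iff_map_eq_zero]
  intro c hc
  -- the abelian Lie algebra
  letI : LieRing (Fin d → k) :=
    { bracket := fun _ _ => 0
      add_lie := fun _ _ _ => (add_zero _).symm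
      lie_add := fun _ _ _ => (add_zero _).symm
      lie_self := fun _ => rfl
      leibniz_lie := fun _ _ _ => (add_zero _).symm }
  letI : LieAlgebra k (Fin d → k) :=
    { lie_smul := fun c _ _ => (smul_zero c).symm }
  have hbr : ∀ a b : Fin d → k, ⁅a, b⁆ = 0 := fun _ _ => rfl
  set φ : FreeLieAlgebra k (Fin d) →ₗ⁅k⁆ (Fin d → k) := FreeLieAlgebra.lift k (fun i => eb k d i)
    with hφ
  have hspan : ∀ s ∈ Submodule.span k {r : FreeLieAlgebra k (Fin d) |
        ∃ i j : Fin d, r = ⁅FreeLieAlgebra.of k i, FreeLieAlgebra.of k j⁆}, φ s = 0 := by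
    intro s hs
    induction hs using Submodule.span_induction with
    | mem s hs =>
      obtain ⟨i, j, rfl⟩ := hs
      rw [LieHom.map_lie, hbr]
    | zero => rw [map_zero]
    | add a b _ _ ha hb => rw [map_add, ha, hb, add_zero]
    | smul c a _ ha => rw [map_smul, ha, smul_zero]
  have h1 : (FreeLieAlgebra.lift k x).ker ≤ φ.ker := by
    rw [hker, LieSubmodule.lieSpan_le]
    intro s hs
    exact LieHom.mem_ker.2 (hspan s (hS hs))
  have h2 : (∑ i, c i • FreeLieAlgebra.of k i) ∈ (FreeLieAlgebra.lift k x).ker := by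
    rw [LieHom.mem_ker, map_sum, ← hc, Emap_apply]
    refine Finset.sum_congr rfl fun i _ => ?_
    rw [map_smul, FreeLieAlgebra.lift_of_apply]
  have h3 := LieHom.mem_ker.1 (h1 h2)
  rw [map_sum] at h3
  simp only [map_smul, hφ, FreeLieAlgebra.lift_of_apply] at h3
  rwa [sum_eb c] at h3

theorem cy_of_blochKato (h2 : (2 : k) ≠ 0) (h : IsGradedLie 𝓛) (hBK : IsBlochKato 𝓛)
    (x : Fin d → L) (hx : ∀ i, x i ∈ 𝓛 1) (S : Set (FreeLieAlgebra k (Fin d)))
    (hS : S ⊆ (Submodule.span k {r : FreeLieAlgebra k (Fin d) |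
        ∃ i j : Fin d, r = ⁅FreeLieAlgebra.of k i, FreeLieAlgebra.of k j⁆} :
          Set (FreeLieAlgebra k (Fin d))))
    (hker : (FreeLieAlgebra.lift k x).ker = LieSubmodule.lieSpan k (FreeLieAlgebra k (Fin d)) S)
    (Y : Submodule k (Fin d → k)) : CY (Emap x) Y := by
  refine CY_of_BK (Emap x) h2 h hBK (fun v => ?_) (Emap_injective x S hS hker) Y
  rw [Emap_apply]
  exact Submodule.sum_mem _ fun i _ => Submodule.smul_mem _ _ (hx i)

end

end Pool.Agent.Helper83.BK
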