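import Pool.Agent.Helper83.BK.Combi

set_option autoImplicit false

namespace Pool.Agent.Helper83.BK

open Submodule Module

universe u

variable {k : Type u} [Field k] {d : ℕ}

/-- `A` is the quadratic algebra with generators `ι` and relations `R` -/
structure IsQuad {A : Type u} [Ring A] [Algebra k A] (ι : (Fin d → k) →ₗ[k] A)
    (R : Submodule k (Fin d → Fin d → k)) : Prop where
  rel : ∀ q ∈ R, ∑ i, ι (eb k d i) * ι (q i) = 0
  gen : Algebra.adjoin k (Set.range ι) = ⊤
  up : ∀ (A' : Type u) [Ring A'] [Algebra k A'] (a : Fin d → A'),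
    (∀ q ∈ R, ∑ i, ∑ j, q i j • (a i * a j) = 0) → ∃ φ : A →ₐ[k] A', ∀ i, φ (ι (eb k d i)) = a i

lemma lin_ext {A : Type u} [AddCommGroup A] [Module k A] {f g : (Fin d → k) →ₗ[k] A}
    (h : ∀ i, f (eb k d i) = g (eb k d i)) : f = g := by
  ext i
  simpa using h i

section

variable {A : Type u} [Ring A] [Algebra k A] {ι : (Fin d → k) →ₗ[k] A}
  {R : Submodule k (Fin d → Fin d → k)}

/-- the module used for the representation -/
abbrev QQ (ι : (Fin d → k) →ₗ[k] A) (R : Submodule k (Fin d → Fin d → k)) : Type u :=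
  (Fin d → A) ⧸ (SJ ι R ⊤)

/-- action of the generators -/
noncomputable def actGen (ι : (Fin d → k) →ₗ[k] A) (R : Submodule k (Fin d → Fin d → k)) (i : Fin d) :
    Module.End k (QQ ι R × k) where
  toFun p := (ι (eb k d i) • p.1 + p.2 • (SJ ι R ⊤).mkQ (vec A (eb k d i)), 0)
  map_add' a b := by
    ext
    · simp only [Prod.fst_add, Prod.snd_add, smul_add, add_smul]
      abel
    · simp
  map_smul' c a := by
    ext
    · simp only [Prod.smul_fst, Prod.smul_snd, smul_eq_mul, RingHom.id_apply, smul_add, mul_smul]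
      congr 1
      rw [← algebraMap_smul A c (ι (eb k d i) • a.1), ← algebraMap_smul A c a.1, smul_smul, smul_smul,
        Algebra.commutes]
    · simp

lemma actGen_apply (i : Fin d) (p : QQ ι R) (c : k) :
    actGen ι R i (p, c) = (ι (eb k d i) • p + c • (SJ ι R ⊤).mkQ (vec A (eb k d i)), 0) := rfl

lemma sum_row (ι : (Fin d → k) →ₗ[k] A) (q : Fin d → Fin d → k) (i : Fin d) :
    ι (q i) = ∑ j, q i j • ι (eb k d j) := by
  conv_lhs => rw [← sum_eb (q i)]
  rw [map_sum]
  simp only [map_smul]

lemma IsQuad.top (h : IsQuad ι R) (τ : Fin d → A) (hτ : mu ι τ = 0) : τ ∈ SJ ι R ⊤ := by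
  have hrel : ∀ q ∈ R, ∑ i, ∑ j, q i j • (actGen ι R i * actGen ι R j) = 0 := by
    intro q hq
    refine LinearMap.ext fun p => ?_
    obtain ⟨p, c⟩ := p
    simp only [LinearMap.sum_apply, LinearMap.smul_apply, Module.End.mul_apply, actGen_apply,
      smul_add, zero_smul, add_zero, LinearMap.zero_apply]
    have h1 : ∑ i, ∑ j, q i j • ι (eb k d i) • ι (eb k d j) • p = 0 := by
      have := h.rel q hq
      simp only [sum_row ι q, Finset.mul_sum, mul_smul_comm] at this
      have h2 := congrArg (fun a => a • p) this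
      simp only [Finset.sum_smul, zero_smul, smul_assoc, mul_smul] at h2
      exact h2
    have h2 : ∑ i, ∑ j, q i j • ι (eb k d i) • c • (SJ ι R ⊤).mkQ (vec A (eb k d j)) = 0 := by
      have h3 : ∀ i j, q i j • ι (eb k d i) • c • (SJ ι R ⊤).mkQ (vec A (eb k d j)) =
          c • (SJ ι R ⊤).mkQ (q i j • ι (eb k d i) • vec A (eb k d j)) := by
        intro i j
        rw [LinearMap.map_smul_of_tower, map_smul, smul_comm c (q i j)]
        congr 1
        rw [← algebraMap_smul A c, ← algebraMap_smul A c, smul_smul, smul_smul, Algebra.commutes]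
      simp only [h3, ← Finset.smul_sum, ← map_sum]
      have h4 : ∑ i, ∑ j, q i j • ι (eb k d i) • vec A (eb k d j) = hat ι q := by
        funext l
        simp only [Finset.sum_apply, Pi.smul_apply, vec, smul_eq_mul]
        have h5 : ∀ i j : Fin d, q i j • (ι (eb k d i) * algebraMap k A (eb k d j l)) =
            if j = l then q i j • ι (eb k d i) else 0 := by
          intro i j
          by_cases hjl : j = l
          · subst hjl; simp
          · have : eb k d j l = 0 := by simp [eb, Ne.symm hjl]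
            rw [this]; simp [hjl]
        simp only [h5, Finset.sum_ite_eq', Finset.mem_univ, if_true]
        simp only [hat]
        conv_rhs => rw [← sum_eb (fun i => q i l)]
        rw [map_sum]
        simp only [map_smul]
      rw [h4]
      have h6 : (SJ ι R ⊤).mkQ (hat ι q) = 0 := by
        rw [Submodule.mkQ_apply, Submodule.Quotient.mk_eq_zero]
        exact Submodule.subset_span ⟨q, ⟨hq, fun i => Submodule.mem_top⟩, rfl⟩
      rw [h6, smul_zero]
    have e : ∑ i, ∑ j, q i j • ((ι (eb k d i) • ι (eb k d j) • p +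
        ι (eb k d i) • c • (SJ ι R ⊤).mkQ (vec A (eb k d j)), (0 : k)) : QQ ι R × k) = 0 := by
      have : ∀ i j, q i j • ((ι (eb k d i) • ι (eb k d j) • p +
          ι (eb k d i) • c • (SJ ι R ⊤).mkQ (vec A (eb k d j)), (0 : k)) : QQ ι R × k) =
          LinearMap.inl k (QQ ι R) k (q i j • ι (eb k d i) • ι (eb k d j) • p +
            q i j • ι (eb k d i) • c • (SJ ι R ⊤).mkQ (vec A (eb k d j))) := by
        intro i j
        ext
        · simp [smul_add]
        · simp
      simp only [this, ← map_sum, Finset.sum_add_distrib, h1, h2, add_zero, map_zero]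
    exact e
  obtain ⟨φ, hφ⟩ := h.up (Module.End k (QQ ι R × k)) (actGen ι R) hrel
  have hφ1 : ∀ v : Fin d → k, ∀ p : QQ ι R, φ (ι v) (p, 0) = (ι v • p, 0) := by
    intro v p
    conv_lhs => rw [← sum_eb v]
    conv_rhs => rw [← sum_eb v]
    simp only [map_sum, map_smul, hφ, LinearMap.sum_apply, LinearMap.smul_apply, actGen_apply,
      zero_smul, add_zero, Finset.sum_smul]
    have : ∀ i, v i • ((ι (eb k d i) • p, (0 : k)) : QQ ι R × k) =
        LinearMap.inl k (QQ ι R) k ((v i • ι (eb k d i)) • p) := by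
      intro i
      ext
      · simp
      · simp
    simp only [this, ← map_sum]
    rfl
  have hφ2 : ∀ a : A, ∀ p : QQ ι R, φ a (p, 0) = (a • p, 0) := by
    intro a
    have ha : a ∈ Algebra.adjoin k (Set.range ι) := by
      rw [h.gen]; exact Algebra.mem_top
    induction ha using Algebra.adjoin_induction with
    | mem x hx =>
      obtain ⟨v, rfl⟩ := hx
      exact hφ1 v
    | algebraMap c =>
      intro p
      rw [AlgHom.commutes, Module.algebraMap_end_apply]
      ext
      · simp
      · simp
    | add x y _ _ hx hy =>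
      intro p
      rw [map_add, LinearMap.add_apply, hx, hy, add_smul]
      simp
    | mul x y _ _ hx hy =>
      intro p
      rw [map_mul, Module.End.mul_apply, hy, hx, mul_smul]
  have h3 : φ (mu ι τ) (0, 1) = ((SJ ι R ⊤).mkQ τ, 0) := by
    show φ (∑ l, τ l * ι (eb k d l)) (0, 1) = _
    rw [map_sum, LinearMap.sum_apply]
    have h4 : ∀ l, φ (τ l * ι (eb k d l)) (0, 1) =
        LinearMap.inl k (QQ ι R) k ((SJ ι R ⊤).mkQ (τ l • vec A (eb k d l))) := by
      intro l
      rw [map_mul, Module.End.mul_apply, hφ, actGen_apply, smul_zero, zero_add, one_smul, hφ2,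
        map_smul]
      rfl
    simp only [h4, ← map_sum]
    have h5 : ∑ l, τ l • vec A (eb k d l) = τ := by
      funext m
      simp only [Finset.sum_apply, Pi.smul_apply, vec, smul_eq_mul]
      have h6 : ∀ l : Fin d, τ l * algebraMap k A (eb k d l m) = if l = m then τ l else 0 := by
        intro l
        by_cases hl : l = m
        · subst hl; simp
        · have : eb k d l m = 0 := by simp [eb, Ne.symm hl]
          rw [this]; simp [hl]
      simp [h6]
    rw [h5]
    rfl
  rw [hτ, map_zero, LinearMap.zero_apply] at h3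
  have h7 := congrArg Prod.fst h3
  simp only [Prod.fst_zero] at h7
  rw [eq_comm, Submodule.mkQ_apply, Submodule.Quotient.mk_eq_zero] at h7
  exact h7

lemma IsQuad.aug (h : IsQuad ι R) : ∃ (π : A →ₗ[k] (Fin d → k)) (ε : A →ₗ[k] k),
    (∀ b c, ε (b * c) = ε b * ε c) ∧
    (∀ b c, π (b * c) = ε b • π c + ε c • π b) ∧ (∀ v, π (ι v) = v) ∧ (∀ v, ε (ι v) = 0) ∧
    (ε 1 = 1) ∧ (π 1 = 0) := by
  obtain ⟨φ, hφ⟩ := h.up (TrivSqZeroExt k (Fin d → k)) (fun i => TrivSqZeroExt.inr (eb k d i)) (by
    intro q _
    simp [TrivSqZeroExt.inr_mul_inr])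
  have hφι : ∀ v, φ (ι v) = TrivSqZeroExt.inr v := by
    intro v
    conv_lhs => rw [← sum_eb v]
    conv_rhs => rw [← sum_eb v]
    simp only [map_sum, map_smul, hφ]
    rw [← TrivSqZeroExt.inrHom_apply k, map_sum]
    simp
  refine ⟨(TrivSqZeroExt.sndHom k (Fin d → k)).comp φ.toLinearMap,
    (TrivSqZeroExt.fstHom k k (Fin d → k)).toLinearMap.comp φ.toLinearMap, ?_, ?_, ?_, ?_, ?_, ?_⟩
  · intro b c
    simp
  · intro b c
    simp
  · intro v
    simp [hφι]
  · intro v
    simp [hφι]
  · simp
  · simp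

end

/-! ### The algebra given by generators and relations -/

/-- the relations -/
inductive QRel (S : Submodule k (Fin d → Fin d → k)) :
    FreeAlgebra k (Fin d) → FreeAlgebra k (Fin d) → Prop
  | of (q : Fin d → Fin d → k) (hq : q ∈ S) :
    QRel S (∑ i, ∑ j, q i j • (FreeAlgebra.ι k i * FreeAlgebra.ι k j)) 0

/-- quadratic algebra -/
abbrev QA (S : Submodule k (Fin d → Fin d → k)) : Type u := RingQuot (QRel S)

/-- its generators -/
noncomputable def qi (S : Submodule k (Fin d → Fin d → k)) : (Fin d → k) →ₗ[k] QA S :=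
  Fintype.linearCombination k (fun i => RingQuot.mkAlgHom k (QRel S) (FreeAlgebra.ι k i))

lemma qi_eb (S : Submodule k (Fin d → Fin d → k)) (i : Fin d) :
    qi S (eb k d i) = RingQuot.mkAlgHom k (QRel S) (FreeAlgebra.ι k i) := by
  simp [qi, Fintype.linearCombination_apply, eb, Pi.single_apply]

lemma isQuad_QA (S : Submodule k (Fin d → Fin d → k)) : IsQuad (qi S) S where
  rel := by
    intro q hq
    have h1 := RingQuot.mkAlgHom_rel k (QRel.of q hq)
    rw [map_zero] at h1
    rw [← h1]
    simp only [map_sum, map_smul, map_mul, ← qi_eb]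
    refine Finset.sum_congr rfl fun i _ => ?_
    conv_lhs => rw [← sum_eb (q i)]
    simp only [map_sum, map_smul, Finset.mul_sum, mul_smul_comm]
  gen := by
    rw [eq_top_iff]
    intro x _
    obtain ⟨y, rfl⟩ := RingQuot.mkAlgHom_surjective k (QRel S) x
    induction y using FreeAlgebra.induction with
    | grade0 r => rw [AlgHom.commutes]; exact Subalgebra.algebraMap_mem _ _
    | grade1 i =>
      rw [← qi_eb]
      exact Algebra.subset_adjoin ⟨_, rfl⟩
    | mul a b ha hb => rw [map_mul]; exact Subalgebra.mul_mem _ (ha Algebra.mem_top) (hb Algebra.mem_top)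
    | add a b ha hb => rw [map_add]; exact Subalgebra.add_mem _ (ha Algebra.mem_top) (hb Algebra.mem_top)
  up := by
    intro A' _ _ a ha
    refine ⟨RingQuot.liftAlgHom k ⟨FreeAlgebra.lift k a, ?_⟩, ?_⟩
    · rintro x y ⟨q, hq⟩
      rw [map_zero]
      simp only [map_sum, map_smul, map_mul, FreeAlgebra.lift_ι_apply]
      exact ha q hq
    · intro i
      rw [qi_eb, RingQuot.liftAlgHom_mkAlgHom_apply, FreeAlgebra.lift_ι_apply]

end Pool.Agent.Helper83.BK
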