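import Pool.Agent.Helper83.BK.Canon

set_option autoImplicit false

namespace Pool.Agent.Helper83.BK

open CategoryTheory CategoryTheory.Abelian TensorProduct ModuleCat

universe u

variable {k : Type u} [Field k] {d : ℕ} {A : Type u} [Ring A] [Algebra k A]
  {ι : (Fin d → k) →ₗ[k] A} {R : Submodule k (Fin d → Fin d → k)}

/-- the data of the augmentation attached to a given augmentation -/
lemma IsQuad.aug' (h : IsQuad ι R) (ε : A →ₐ[k] k) (hε : ∀ v, ε (ι v) = 0) :
    ∃ π : A →ₗ[k] (Fin d → k), (∀ a b, π (a * b) = ε a • π b + ε b • π a) ∧ ∀ v, π (ι v) = v := by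
  obtain ⟨π, ε', h1, h2, h3, h4, h5, h6⟩ := h.aug
  have h7 : ∀ a : A, ε' a = ε a := by
    intro a
    have ha : a ∈ Algebra.adjoin k (Set.range ι) := by
      rw [h.gen]; exact Algebra.mem_top
    induction ha using Algebra.adjoin_induction with
    | mem x hx =>
      obtain ⟨v, rfl⟩ := hx
      rw [h4, hε]
    | algebraMap c =>
      rw [Algebra.algebraMap_eq_smul_one, map_smul, map_smul, h5, map_one]
    | add x y _ _ hx hy => rw [map_add, map_add, hx, hy]
    | mul x y _ _ hx hy => rw [h1, hx, hy, map_mul]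
  refine ⟨π, fun a b => ?_, h3⟩
  rw [h2, h7, h7]

lemma IsQuad.span_gen (h : IsQuad ι R) (ε : A →ₐ[k] k) (hε : ∀ v, ε (ι v) = 0) (a : A) :
    ∃ τ : Fin d → A, mu ι τ = a - algebraMap k A (ε a) := by
  have ha : a ∈ Algebra.adjoin k (Set.range ι) := by
    rw [h.gen]; exact Algebra.mem_top
  induction ha using Algebra.adjoin_induction with
  | mem x hx =>
    obtain ⟨v, rfl⟩ := hx
    refine ⟨vec A v, ?_⟩
    rw [mu_vec, hε, map_zero, sub_zero]
  | algebraMap c =>
    refine ⟨0, ?_⟩
    rw [map_zero, AlgHom.commutes, Algebra.algebraMap_self_apply, sub_self]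
  | add x y _ _ hx hy =>
    obtain ⟨τ, hτ⟩ := hx
    obtain ⟨σ, hσ⟩ := hy
    refine ⟨τ + σ, ?_⟩
    rw [map_add, hτ, hσ, map_add, map_add]
    abel
  | mul x y _ _ hx hy =>
    obtain ⟨τ, hτ⟩ := hx
    obtain ⟨σ, hσ⟩ := hy
    refine ⟨x • σ + algebraMap k A (ε y) • τ, ?_⟩
    rw [map_add, map_smul, map_smul, hσ, hτ, map_mul ε, map_mul (algebraMap k A), smul_eq_mul,
      smul_eq_mul, mul_sub, mul_sub, ← Algebra.commutes (ε y) x,
      Algebra.commutes (ε y) (algebraMap k A (ε x))]
    abel

/-- the augmentation as a map of modules -/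
noncomputable def augM (ε : A →ₐ[k] k) : A →ₗ[A] Triv ε where
  toFun a := (ε a : k)
  map_add' a b := map_add ε a b
  map_smul' a b := by
    show (ε (a * b) : k) = ε a * ε b
    exact map_mul _ _ _

lemma augM_surj (ε : A →ₐ[k] k) : Function.Surjective (augM ε) := by
  intro t
  refine ⟨algebraMap k A (toK ε t), ?_⟩
  apply toK_inj
  show ε (algebraMap k A (toK ε t)) = toK ε t
  rw [AlgHom.commutes, Algebra.algebraMap_self_apply]

lemma ksmul (ε : A →ₐ[k] k) (c : k) (t : Triv ε) :
    toK ε (algebraMap k A c • t) = c * toK ε t := by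
  refine (toK_smul ε _ _).trans ?_
  rw [AlgHom.commutes, Algebra.algebraMap_self_apply]

theorem finrank_ext_one (h : IsQuad ι R) (ε : A →ₐ[k] k) (hε : ∀ v, ε (ι v) = 0) :
    Module.finrank k (Ext (ModuleCat.of A (Triv ε)) (ModuleCat.of A (Triv ε)) 1) = d := by
  obtain ⟨π, hπ, hπι⟩ := h.aug' ε hε
  rw [ext_finrank_zero (augM ε) (augM_surj ε) (ModuleCat.of A (Triv ε))]
  swap
  · intro g x
    have hx : ε x.1 = 0 := x.2
    have : g x.1 = x.1 • g 1 := by rw [← map_smul, smul_eq_mul, mul_one]
    rw [this]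
    apply toK_inj ε
    refine (toK_smul ε _ _).trans ?_
    rw [hx, zero_mul]
    rfl
  have hmem : ∀ i, ι (eb k d i) ∈ LinearMap.ker (augM ε) := fun i => hε _
  let φ : (ModuleCat.of A (LinearMap.ker (augM ε)) ⟶ ModuleCat.of A (Triv ε)) →ₗ[k]
      (Fin d → k) :=
    { toFun := fun f i => toK ε (f.hom ⟨ι (eb k d i), hmem i⟩)
      map_add' := fun f g => rfl
      map_smul' := fun c f => by
        funext i
        exact ksmul ε c _ }
  have hinj : Function.Injective φ := by
    rw [injective_iff_map_eq_zero]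
    intro f hf
    ext x
    obtain ⟨τ, hτ⟩ := h.span_gen ε hε x.1
    have hx : ε x.1 = 0 := x.2
    rw [hx, map_zero, sub_zero] at hτ
    have hx2 : x = ∑ i, τ i • (⟨ι (eb k d i), hmem i⟩ : LinearMap.ker (augM ε)) := by
      apply Subtype.ext
      rw [← hτ, Submodule.coe_sum]
      rfl
    rw [hx2, map_sum]
    have : ∀ i, f.hom (τ i • (⟨ι (eb k d i), hmem i⟩ : LinearMap.ker (augM ε))) = 0 := by
      intro i
      rw [map_smul]
      have : f.hom (⟨ι (eb k d i), hmem i⟩ : LinearMap.ker (augM ε)) = 0 := congrFun hf i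
      rw [this, smul_zero]
    exact Finset.sum_eq_zero fun i _ => this i
  have hsurj : Function.Surjective φ := by
    intro ξ
    let f : LinearMap.ker (augM ε) →ₗ[A] Triv ε :=
      { toFun := fun x => (pair1 ξ (π x.1) : k)
        map_add' := fun x y => by
          show pair1 ξ (π (x.1 + y.1)) = _
          rw [map_add, map_add]
          rfl
        map_smul' := fun a x => by
          have hx : ε x.1 = 0 := x.2
          show pair1 ξ (π (a * x.1)) = _
          rw [hπ, hx, zero_smul, add_zero, map_smul]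
          rfl }
    refine ⟨ModuleCat.ofHom f, ?_⟩
    funext i
    show pair1 ξ (π (ι (eb k d i))) = ξ i
    rw [hπι, pair1_apply]
    simp [eb, Pi.single_apply]
  rw [(LinearEquiv.ofBijective φ ⟨hinj, hsurj⟩).finrank_eq]
  simp

lemma eps_zero_of_mu (ε : A →ₐ[k] k) (hε : ∀ v, ε (ι v) = 0) (π : A →ₗ[k] (Fin d → k))
    (hπ : ∀ a b, π (a * b) = ε a • π b + ε b • π a) (hπι : ∀ v, π (ι v) = v) (x : Fin d → A)
    (hx : mu ι x = 0) (l : Fin d) : ε (x l) = 0 := by
  have h1 : π (mu ι x) = ∑ l, ε (x l) • eb k d l := by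
    show π (∑ l, x l * ι (eb k d l)) = _
    rw [map_sum]
    refine Finset.sum_congr rfl fun l _ => ?_
    rw [hπ, hε, hπι, zero_smul, add_zero]
  rw [hx, map_zero, sum_eb (fun l => ε (x l))] at h1
  exact (congrFun h1 l).symm

theorem finrank_ext_two (h : IsQuad ι R) (ε : A →ₐ[k] k) (hε : ∀ v, ε (ι v) = 0) :
    Module.finrank k (Ext (ModuleCat.of A (Triv ε)) (ModuleCat.of A (Triv ε)) 2) =
      Module.finrank k R := by
  obtain ⟨π, hπ, hπι⟩ := h.aug' ε hε
  rw [ext_finrank_shift (augM ε) (augM_surj ε) (ModuleCat.of A (Triv ε)) 0]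
  have hmuI : ∀ τ : Fin d → A, mu ι τ ∈ LinearMap.ker (augM ε) := by
    intro τ
    show ε (∑ l, τ l * ι (eb k d l)) = 0
    rw [map_sum]
    refine Finset.sum_eq_zero fun l _ => ?_
    rw [map_mul, hε, mul_zero]
  let muI : (Fin d → A) →ₗ[A] LinearMap.ker (augM ε) := (mu ι).codRestrict _ hmuI
  have hsurjI : Function.Surjective muI := by
    intro x
    obtain ⟨τ, hτ⟩ := h.span_gen ε hε x.1
    have hx : ε x.1 = 0 := x.2
    rw [hx, map_zero, sub_zero] at hτ
    exact ⟨τ, Subtype.ext hτ⟩
  have hker : ∀ x : LinearMap.ker muI, mu ι x.1 = 0 := fun x => congrArg Subtype.val x.2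
  have heps : ∀ x : LinearMap.ker muI, ∀ l, ε (x.1 l) = 0 := fun x =>
    eps_zero_of_mu ε hε π hπ hπι x.1 (hker x)
  have hexp : ∀ x : Fin d → A, x = ∑ l, x l • vec A (eb k d l) := by
    intro x
    funext m
    simp only [Finset.sum_apply, Pi.smul_apply, vec, smul_eq_mul]
    have h6 : ∀ l : Fin d, x l * algebraMap k A (eb k d l m) = if l = m then x l else 0 := by
      intro l
      by_cases hl : l = m
      · subst hl; simp
      · have : eb k d l m = 0 := by simp [eb, Ne.symm hl]
        rw [this]; simp [hl]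
    simp [h6]
  rw [ext_finrank_zero muI hsurjI (ModuleCat.of A (Triv ε))]
  swap
  · intro g x
    rw [hexp x.1, map_sum]
    refine Finset.sum_eq_zero fun l _ => ?_
    rw [map_smul]
    apply toK_inj ε
    refine (toK_smul ε _ _).trans ?_
    rw [heps x l, zero_mul]
    rfl
  have hhat : ∀ r ∈ R, hat ι r ∈ LinearMap.ker muI := by
    intro r hr
    rw [LinearMap.mem_ker]
    apply Subtype.ext
    show ∑ l, ι (fun i => r i l) * ι (eb k d l) = 0
    have h1 := h.rel r hr
    rw [← ev2_eq, ev2_apply, Finset.sum_comm] at h1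
    rw [← h1]
    refine Finset.sum_congr rfl fun l _ => ?_
    conv_lhs => rw [← sum_eb (fun i => r i l)]
    rw [map_sum, Finset.sum_mul]
    refine Finset.sum_congr rfl fun i _ => ?_
    rw [map_smul, smul_mul_assoc]
  let φ : (ModuleCat.of A (LinearMap.ker muI) ⟶ ModuleCat.of A (Triv ε)) →ₗ[k]
      (Module.Dual k R) :=
    { toFun := fun f =>
        { toFun := fun r => toK ε (f.hom ⟨hat ι r.1, hhat r.1 r.2⟩)
          map_add' := fun r s => by
            have h1 : (⟨hat ι (r + s).1, hhat _ (r + s).2⟩ : LinearMap.ker muI) =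
                ⟨hat ι r.1, hhat _ r.2⟩ + ⟨hat ι s.1, hhat _ s.2⟩ :=
              Subtype.ext (hat_add ι r.1 s.1)
            have h2 := congrArg f.hom h1
            rw [map_add] at h2
            exact congrArg (toK ε) h2
          map_smul' := fun c r => by
            have h1 : (⟨hat ι (c • r).1, hhat _ (c • r).2⟩ : LinearMap.ker muI) =
                algebraMap k A c • ⟨hat ι r.1, hhat _ r.2⟩ :=
              Subtype.ext (hat_smul ι c r.1)
            have h2 := congrArg f.hom h1
            rw [map_smul] at h2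
            refine Eq.trans (congrArg (toK ε) h2) ?_
            refine (toK_smul ε _ _).trans ?_
            rw [AlgHom.commutes, Algebra.algebraMap_self_apply]
            rfl }
      map_add' := fun f g => rfl
      map_smul' := fun c f => by
        refine LinearMap.ext fun r => ?_
        exact ksmul ε c _ }
  have hinj : Function.Injective φ := by
    rw [injective_iff_map_eq_zero]
    intro f hf
    ext x
    have hx := h.top x.1 (hker x)
    have key : ∀ y : Fin d → A, y ∈ SJ ι R ⊤ → ∀ hy : y ∈ LinearMap.ker muI,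
        f.hom ⟨y, hy⟩ = 0 := by
      intro y hy
      unfold SJ at hy
      induction hy using Submodule.span_induction with
      | mem y hy =>
        obtain ⟨r, hr, rfl⟩ := hy
        intro hy
        exact LinearMap.congr_fun hf ⟨r, hr.1⟩
      | zero =>
        intro hy
        exact map_zero f.hom
      | add y z hy hz hy' hz' =>
        intro hyz
        have m1 : y ∈ LinearMap.ker muI := by
          have : SJ ι R ⊤ ≤ LinearMap.ker muI := by
            unfold SJ
            rw [Submodule.span_le]
            rintro _ ⟨r, hr, rfl⟩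
            exact hhat r hr.1
          exact this hy
        have m2 : z ∈ LinearMap.ker muI := by
          have : SJ ι R ⊤ ≤ LinearMap.ker muI := by
            unfold SJ
            rw [Submodule.span_le]
            rintro _ ⟨r, hr, rfl⟩
            exact hhat r hr.1
          exact this hz
        have h1 : (⟨y + z, hyz⟩ : LinearMap.ker muI) = ⟨y, m1⟩ + ⟨z, m2⟩ := rfl
        rw [h1, map_add, hy' m1, hz' m2, add_zero]
      | smul a y hy hy' =>
        intro hay
        have m1 : y ∈ LinearMap.ker muI := by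
          have : SJ ι R ⊤ ≤ LinearMap.ker muI := by
            unfold SJ
            rw [Submodule.span_le]
            rintro _ ⟨r, hr, rfl⟩
            exact hhat r hr.1
          exact this hy
        have h1 : (⟨a • y, hay⟩ : LinearMap.ker muI) = a • ⟨y, m1⟩ := rfl
        rw [h1, map_smul, hy' m1, smul_zero]
    exact key x.1 hx x.2
  have hsurj : Function.Surjective φ := by
    intro χ
    obtain ⟨X, hX⟩ := χ.exists_extend
    let f : LinearMap.ker muI →ₗ[A] Triv ε :=
      { toFun := fun x => ((∑ l, X (tens (π (x.1 l)) (eb k d l)) : k))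
        map_add' := fun x y => by
          show ∑ l, X (tens (π (x.1 l + y.1 l)) (eb k d l)) = ∑ l, _ + ∑ l, _
          rw [← Finset.sum_add_distrib]
          refine Finset.sum_congr rfl fun l _ => ?_
          rw [map_add]
          have : tens (π (x.1 l) + π (y.1 l)) (eb k d l) = tens (π (x.1 l)) (eb k d l) +
              tens (π (y.1 l)) (eb k d l) := map_add (tensL (eb k d l)) _ _
          rw [this, map_add]
        map_smul' := fun a x => by
          show ∑ l, X (tens (π (a * x.1 l)) (eb k d l)) = ε a * ∑ l, _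
          rw [Finset.mul_sum]
          refine Finset.sum_congr rfl fun l _ => ?_
          rw [hπ, heps x l, zero_smul, add_zero]
          have : tens (ε a • π (x.1 l)) (eb k d l) = ε a • tens (π (x.1 l)) (eb k d l) :=
            map_smul (tensL (eb k d l)) _ _
          rw [this, map_smul, smul_eq_mul] }
    refine ⟨ModuleCat.ofHom f, ?_⟩
    refine LinearMap.ext fun r => ?_
    show ∑ l, X (tens (π (ι (fun i => r.1 i l))) (eb k d l)) = χ r
    rw [← map_sum]
    have h1 : ∑ l, tens (π (ι (fun i => r.1 i l))) (eb k d l) = r.1 := by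
      funext i j
      simp only [Finset.sum_apply, hπι, tens, eb, Pi.single_apply]
      simp
    rw [h1]
    exact LinearMap.congr_fun hX r
  rw [(LinearEquiv.ofBijective φ ⟨hinj, hsurj⟩).finrank_eq]
  exact Subspace.dual_finrank_eq

end Pool.Agent.Helper83.BK
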