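import Pool.Agent.Helper83.BK.Vanish
import Pool.Agent.Helper83.BK.QuadAlg

set_option autoImplicit false

namespace Pool.Agent.Helper83.BK

open CategoryTheory CategoryTheory.Abelian TensorProduct

universe u

variable {k : Type u} [Field k] {d : ℕ} {A : Type u} [Ring A] [Algebra k A]
  {B : Type u} [Ring B] [Algebra k B]

/-- evaluation of two-tensors in the algebra -/
noncomputable def ev2 (ιA : (Fin d → k) →ₗ[k] A) : (Fin d → Fin d → k) →ₗ[k] A where
  toFun q := ∑ i, ∑ j, q i j • (ιA (eb k d i) * ιA (eb k d j))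
  map_add' a b := by simp [add_smul, Finset.sum_add_distrib]
  map_smul' c a := by simp [Finset.smul_sum, mul_smul]

lemma ev2_apply (ιA : (Fin d → k) →ₗ[k] A) (q : Fin d → Fin d → k) :
    ev2 ιA q = ∑ i, ∑ j, q i j • (ιA (eb k d i) * ιA (eb k d j)) := rfl

lemma ev2_eq (ιA : (Fin d → k) →ₗ[k] A) (q : Fin d → Fin d → k) :
    ev2 ιA q = ∑ i, ιA (eb k d i) * ιA (q i) := by
  rw [ev2_apply]
  refine Finset.sum_congr rfl fun i _ => ?_
  rw [sum_row ιA q i, Finset.mul_sum]
  simp only [mul_smul_comm]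

lemma ev2_tens (ιA : (Fin d → k) →ₗ[k] A) (a b : Fin d → k) :
    ev2 ιA (tens a b) = ιA a * ιA b := by
  rw [ev2_eq]
  conv_rhs => rw [← sum_eb a]
  rw [map_sum, Finset.sum_mul]
  refine Finset.sum_congr rfl fun i _ => ?_
  rw [tens_row, map_smul, map_smul, mul_smul_comm, smul_mul_assoc]

lemma can_zero (ιA : (Fin d → k) →ₗ[k] A) (ιB : (Fin d → k) →ₗ[k] B)
    (R S : Submodule k (Fin d → Fin d → k))
    (hR : ∀ r ∈ R, ev2 ιA r = 0) (hS : ∀ s ∈ S, ev2 ιB s = 0)
    (hRS : ∀ s : Fin d → Fin d → k, (∀ r ∈ R, ∑ i, ∑ j, s j i * r i j = 0) → s ∈ S)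
    (M : Type u) [AddCommGroup M] [Module k M] (Φ : B →ₗ[k] M) :
    ∑ i, ∑ j, (ιA (eb k d i) * ιA (eb k d j)) ⊗ₜ[k] Φ (ιB (eb k d j) * ιB (eb k d i)) = 0 := by
  obtain ⟨p, hp⟩ := R.subtype.exists_leftInverse_of_injective
    (LinearMap.ker_eq_bot.2 R.injective_subtype)
  have hp' : ∀ r ∈ R, ((p r : R) : Fin d → Fin d → k) = r := fun r hr => by
    have := LinearMap.congr_fun hp ⟨r, hr⟩
    exact congrArg Subtype.val this
  have h1 : ∀ i j, ιA (eb k d i) * ιA (eb k d j) =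
      ev2 ιA (tens (eb k d i) (eb k d j) - (p (tens (eb k d i) (eb k d j)) : Fin d → Fin d → k)) := by
    intro i j
    rw [map_sub, ev2_tens, hR _ (p _).2, sub_zero]
  have h2 : ∀ i j, (ιA (eb k d i) * ιA (eb k d j)) ⊗ₜ[k] Φ (ιB (eb k d j) * ιB (eb k d i)) =
      ∑ a, ∑ b, (ιA (eb k d a) * ιA (eb k d b)) ⊗ₜ[k]
        Φ ((tens (eb k d i) (eb k d j) - (p (tens (eb k d i) (eb k d j)) : Fin d → Fin d → k)) a b •
          (ιB (eb k d j) * ιB (eb k d i))) := by
    intro i j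
    conv_lhs => rw [h1 i j, ev2_apply]
    rw [sum_tmul]
    refine Finset.sum_congr rfl fun a _ => ?_
    rw [sum_tmul]
    refine Finset.sum_congr rfl fun b _ => ?_
    rw [smul_tmul, map_smul]
  simp only [h2]
  have h3 : ∑ i, ∑ j, ∑ a, ∑ b, (ιA (eb k d a) * ιA (eb k d b)) ⊗ₜ[k]
        Φ ((tens (eb k d i) (eb k d j) - (p (tens (eb k d i) (eb k d j)) : Fin d → Fin d → k)) a b •
          (ιB (eb k d j) * ιB (eb k d i))) =
      ∑ a, ∑ b, (ιA (eb k d a) * ιA (eb k d b)) ⊗ₜ[k] Φ (∑ i, ∑ j,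
        (tens (eb k d i) (eb k d j) - (p (tens (eb k d i) (eb k d j)) : Fin d → Fin d → k)) a b •
          (ιB (eb k d j) * ιB (eb k d i))) := by
    simp only [map_sum, tmul_sum]
    rw [Finset.sum_congr rfl fun i _ => Finset.sum_comm]
    rw [Finset.sum_comm]
    refine Finset.sum_congr rfl fun a _ => ?_
    rw [Finset.sum_congr rfl fun i _ => Finset.sum_comm]
    rw [Finset.sum_comm]
  rw [h3]
  refine Finset.sum_eq_zero fun a _ => Finset.sum_eq_zero fun b _ => ?_
  have h4 : ∑ i, ∑ j,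
        (tens (eb k d i) (eb k d j) - (p (tens (eb k d i) (eb k d j)) : Fin d → Fin d → k)) a b •
          (ιB (eb k d j) * ιB (eb k d i)) = 0 := by
    rw [Finset.sum_comm]
    apply hS (fun j i =>
      (tens (eb k d i) (eb k d j) - (p (tens (eb k d i) (eb k d j)) : Fin d → Fin d → k)) a b)
    apply hRS
    intro r hr
    have h5 : r = ∑ i, ∑ j, r i j • tens (eb k d i) (eb k d j) := by
      funext x y
      simp only [Finset.sum_apply, Pi.smul_apply, tens, smul_eq_mul, eb, Pi.single_apply]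
      simp
    have h6 : ∑ i, ∑ j, (tens (eb k d i) (eb k d j) -
        (p (tens (eb k d i) (eb k d j)) : Fin d → Fin d → k)) a b * r i j =
        (r - (p r : Fin d → Fin d → k)) a b := by
      conv_rhs => rw [h5]
      simp only [map_sum, map_smul, Submodule.coe_sum, Submodule.coe_smul, Pi.sub_apply,
        Finset.sum_apply, Pi.smul_apply, smul_eq_mul, sub_mul, Finset.sum_sub_distrib]
      simp only [mul_comm]
    rw [h6, hp' r hr, sub_self]
    rfl
  rw [h4, map_zero, tmul_zero]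

end Pool.Agent.Helper83.BK
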