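import Mathlib

set_option autoImplicit false

namespace Pool.Agent.Helper83.BK

open Submodule Module

universe u v

variable {k : Type u} [Field k] {d : ℕ} {B : Type v} [Ring B] [Algebra k B]

/-- standard basis vector -/
abbrev eb (k : Type u) [Field k] (d : ℕ) (i : Fin d) : Fin d → k := Pi.single i 1

/-- linear vector in `B^d` attached to a two-tensor -/
def hat (ι : (Fin d → k) →ₗ[k] B) (q : Fin d → Fin d → k) : Fin d → B :=
  fun l => ι (fun i => q i l)

/-- constant vector in `B^d` -/
def vec (B : Type v) [Ring B] [Algebra k B] (c : Fin d → k) : Fin d → B :=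
  fun l => algebraMap k B (c l)

/-- right multiplication by the generators -/
noncomputable def mu (ι : (Fin d → k) →ₗ[k] B) : (Fin d → B) →ₗ[B] B where
  toFun τ := ∑ l, τ l * ι (eb k d l)
  map_add' a b := by simp [add_mul, Finset.sum_add_distrib]
  map_smul' r a := by simp [Finset.mul_sum, mul_assoc]

/-- contraction with a functional given by its coordinates -/
noncomputable def yB (B : Type v) [Ring B] [Algebra k B] (y : Fin d → k) : (Fin d → B) →ₗ[B] B where
  toFun τ := ∑ l, τ l * algebraMap k B (y l)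
  map_add' a b := by simp [add_mul, Finset.sum_add_distrib]
  map_smul' r a := by simp [Finset.mul_sum, mul_assoc]

lemma hat_add (ι : (Fin d → k) →ₗ[k] B) (p q : Fin d → Fin d → k) :
    hat ι (p + q) = hat ι p + hat ι q := by
  funext l
  simp only [hat, Pi.add_apply, ← map_add]
  rfl

lemma hat_sub (ι : (Fin d → k) →ₗ[k] B) (p q : Fin d → Fin d → k) :
    hat ι (p - q) = hat ι p - hat ι q := by
  funext l
  simp only [hat, Pi.sub_apply, ← map_sub]
  rfl

lemma hat_smul (ι : (Fin d → k) →ₗ[k] B) (c : k) (q : Fin d → Fin d → k) :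
    hat ι (c • q) = algebraMap k B c • hat ι q := by
  funext l
  simp only [hat, Pi.smul_apply, smul_eq_mul]
  have : (fun i => c * q i l) = c • (fun i => q i l) := rfl
  rw [this, map_smul, Algebra.smul_def]

/-- `hat` as a linear map -/
noncomputable def hatL (ι : (Fin d → k) →ₗ[k] B) : (Fin d → Fin d → k) →ₗ[k] (Fin d → B) where
  toFun := hat ι
  map_add' := hat_add ι
  map_smul' c q := by
    rw [hat_smul]
    funext l
    simp [Algebra.smul_def]

lemma sum_eb (c : Fin d → k) : ∑ l, c l • eb k d l = c := by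
  funext i
  simp [eb, Finset.sum_apply, Pi.single_apply]

lemma mu_vec (ι : (Fin d → k) →ₗ[k] B) (c : Fin d → k) : mu ι (vec B c) = ι c := by
  show ∑ l, algebraMap k B (c l) * ι (eb k d l) = ι c
  conv_rhs => rw [← sum_eb c]
  rw [map_sum]
  refine Finset.sum_congr rfl fun l _ => ?_
  rw [map_smul, Algebra.smul_def]

lemma yB_hat (ι : (Fin d → k) →ₗ[k] B) (y : Fin d → k) (q : Fin d → Fin d → k) :
    yB B y (hat ι q) = ι (fun i => ∑ l, q i l * y l) := by
  show ∑ l, ι (fun i => q i l) * algebraMap k B (y l) = _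
  have : (fun i => ∑ l, q i l * y l) = ∑ l, y l • (fun i => q i l) := by
    funext i
    simp [Finset.sum_apply, mul_comm]
  rw [this, map_sum]
  refine Finset.sum_congr rfl fun l _ => ?_
  rw [map_smul, Algebra.smul_def, Algebra.commutes]

lemma yB_vec (y c : Fin d → k) : yB B y (vec B c) = algebraMap k B (∑ l, c l * y l) := by
  show ∑ l, algebraMap k B (c l) * algebraMap k B (y l) = _
  rw [map_sum]
  simp

/-- tensors all of whose rows lie in `J` -/
def VJ (J : Submodule k (Fin d → k)) : Submodule k (Fin d → Fin d → k) where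
  carrier := {q | ∀ i, q i ∈ J}
  add_mem' ha hb i := J.add_mem (ha i) (hb i)
  zero_mem' i := J.zero_mem
  smul_mem' c _ ha i := J.smul_mem c (ha i)

lemma mem_VJ {J : Submodule k (Fin d → k)} {q : Fin d → Fin d → k} :
    q ∈ VJ J ↔ ∀ i, q i ∈ J := Iff.rfl

/-- `c ⊗ ξ` -/
def tens (c ξ : Fin d → k) : Fin d → Fin d → k := fun i l => c i * ξ l

lemma tens_row (c ξ : Fin d → k) (i : Fin d) : tens c ξ i = c i • ξ := rfl

/-- `c ↦ c ⊗ ξ` -/
def tensL (ξ : Fin d → k) : (Fin d → k) →ₗ[k] (Fin d → Fin d → k) where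
  toFun c := tens c ξ
  map_add' a b := by
    funext i l
    simp [tens, add_mul]
  map_smul' c a := by
    funext i l
    simp [tens, mul_assoc]

/-- the space `J_W` -/
def JW (S : Submodule k (Fin d → Fin d → k)) (J : Submodule k (Fin d → k)) (ξ : Fin d → k) :
    Submodule k (Fin d → k) := (S ⊔ VJ J).comap (tensL ξ)

lemma mem_JW {S : Submodule k (Fin d → Fin d → k)} {J : Submodule k (Fin d → k)}
    {ξ c : Fin d → k} : c ∈ JW S J ξ ↔ ∃ s ∈ S, ∀ i, c i • ξ - s i ∈ J := by
  unfold JW
  rw [Submodule.mem_comap, Submodule.mem_sup]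
  constructor
  · rintro ⟨s, hs, z, hz, h⟩
    refine ⟨s, hs, fun i => ?_⟩
    have : c i • ξ = s i + z i := by
      have := congrFun h i
      exact this.symm
    rw [this, add_sub_cancel_left]
    exact hz i
  · rintro ⟨s, hs, h⟩
    refine ⟨s, hs, tensL ξ c - s, fun i => h i, by simp⟩

/-- the span of the constant vectors from `J` -/
def JB (B : Type v) [Ring B] [Algebra k B] (J : Submodule k (Fin d → k)) : Submodule B (Fin d → B) :=
  Submodule.span B (vec B '' (J : Set (Fin d → k)))

/-- linear syzygies -/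
def SJ (ι : (Fin d → k) →ₗ[k] B) (S : Submodule k (Fin d → Fin d → k))
    (J : Submodule k (Fin d → k)) : Submodule B (Fin d → B) :=
  Submodule.span B (hat ι '' ((S ⊓ VJ J : Submodule k _) : Set (Fin d → Fin d → k)))

/-- the syzygy property -/
def PP (ι : (Fin d → k) →ₗ[k] B) (S : Submodule k (Fin d → Fin d → k))
    (J : Submodule k (Fin d → k)) : Prop :=
  ∀ τ ∈ JB B J, mu ι τ = 0 → τ ∈ SJ ι S J

/-- data of hypotheses -/
structure Good (ι : (Fin d → k) →ₗ[k] B) (S : Submodule k (Fin d → Fin d → k)) : Prop where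
  rel : ∀ q ∈ S, ∑ i, ι (eb k d i) * ι (q i) = 0
  top : ∀ τ : Fin d → B, mu ι τ = 0 → τ ∈ SJ ι S ⊤
  diag : ∀ u : Fin d → k, tens u u ∈ S
  deg : ∀ J : Submodule k (Fin d → k), ∀ x : Fin d → Fin d → Fin d → k,
    (∀ i j, x i j ∈ J) →
    (∃ a b : Fin d → Fin d → Fin d → k, x = a + b ∧ (∀ l, (fun i j => a i j l) ∈ S) ∧
      (∀ i, b i ∈ S)) →
    ∃ a b : Fin d → Fin d → Fin d → k, x = a + b ∧ (∀ l, (fun i j => a i j l) ∈ S) ∧
      (∀ i, b i ∈ S ⊓ VJ J)
  aug : ∃ (π : B →ₗ[k] (Fin d → k)) (ε : B →ₗ[k] k), (∀ b c, ε (b * c) = ε b * ε c) ∧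
    (∀ b c, π (b * c) = ε b • π c + ε c • π b) ∧ (∀ v, π (ι v) = v) ∧ (∀ v, ε (ι v) = 0) ∧
    (ε 1 = 1) ∧ (π 1 = 0)

variable {ι : (Fin d → k) →ₗ[k] B} {S : Submodule k (Fin d → Fin d → k)}

lemma Good.symm (h : Good ι S) (u v : Fin d → k) : tens u v + tens v u ∈ S := by
  have h1 := h.diag (u + v)
  have h2 := h.diag u
  have h3 := h.diag v
  have : tens u v + tens v u = tens (u + v) (u + v) - tens u u - tens v v := by
    funext i l
    simp [tens]
    ring
  rw [this]
  exact S.sub_mem (S.sub_mem h1 h2) h3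

lemma Good.le_JW (h : Good ι S) (J : Submodule k (Fin d → k)) (ξ : Fin d → k) :
    J ⊔ k ∙ ξ ≤ JW S J ξ := by
  rw [sup_le_iff]
  constructor
  · intro c hc
    rw [mem_JW]
    refine ⟨tens c ξ + tens ξ c, h.symm c ξ, fun i => ?_⟩
    have : c i • ξ - (tens c ξ + tens ξ c) i = -(ξ i • c) := by
      rw [Pi.add_apply, tens_row, tens_row]
      abel
    rw [this]
    exact J.neg_mem (J.smul_mem _ hc)
  · rw [Submodule.span_singleton_le_iff_mem, mem_JW]
    refine ⟨tens ξ ξ, h.diag ξ, fun i => ?_⟩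
    rw [tens_row, sub_self]
    exact J.zero_mem

/-- functional vanishing on `J` with value one at `ξ` -/
lemma exists_y (J : Submodule k (Fin d → k)) (ξ : Fin d → k) (hξ : ξ ∉ J) :
    ∃ y : Fin d → k, (∀ c ∈ J, ∑ l, c l * y l = 0) ∧ ∑ l, ξ l * y l = 1 := by
  obtain ⟨f, hf, hJ⟩ := Submodule.exists_dual_map_eq_bot_of_notMem hξ inferInstance
  have hrep : ∀ c : Fin d → k, f c = ∑ l, c l * f (eb k d l) := by
    intro c
    conv_lhs => rw [← sum_eb c]
    rw [map_sum]
    simp
  refine ⟨fun l => f (eb k d l) / f ξ, ?_, ?_⟩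
  · intro c hc
    have h0 : f c = 0 := by
      have : f c ∈ J.map f := Submodule.mem_map_of_mem hc
      rw [hJ] at this
      exact (Submodule.mem_bot k).1 this
    have : ∑ l, c l * (f (eb k d l) / f ξ) = f c / f ξ := by
      rw [hrep c, Finset.sum_div]
      refine Finset.sum_congr rfl fun l _ => ?_
      ring
    rw [this, h0, zero_div]
  · have : ∑ l, ξ l * (f (eb k d l) / f ξ) = f ξ / f ξ := by
      conv_rhs => rw [hrep ξ]
      rw [Finset.sum_div]
      refine Finset.sum_congr rfl fun l _ => ?_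
      rw [← hrep ξ]
      ring
    rw [this, div_self hf]

lemma decomp {J : Submodule k (Fin d → k)} {ξ y : Fin d → k}
    (hy : ∀ c ∈ J, ∑ l, c l * y l = 0) (hy1 : ∑ l, ξ l * y l = 1) {c : Fin d → k}
    (hc : c ∈ J ⊔ k ∙ ξ) : c - (∑ l, c l * y l) • ξ ∈ J := by
  rw [Submodule.mem_sup] at hc
  obtain ⟨a, ha, b, hb, rfl⟩ := hc
  rw [Submodule.mem_span_singleton] at hb
  obtain ⟨t, rfl⟩ := hb
  have : ∑ l, (a + t • ξ) l * y l = t := by
    simp only [Pi.add_apply, Pi.smul_apply, smul_eq_mul, add_mul, Finset.sum_add_distrib, mul_assoc,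
      ← Finset.mul_sum, hy a ha, hy1]
    simp
  rw [this, add_sub_cancel_right]
  exact ha

/-- contraction of the second index -/
def contr (y : Fin d → k) : (Fin d → Fin d → k) →ₗ[k] (Fin d → k) where
  toFun q := fun i => ∑ l, q i l * y l
  map_add' a b := by
    funext i
    simp [add_mul, Finset.sum_add_distrib]
  map_smul' c a := by
    funext i
    simp [mul_assoc, Finset.mul_sum]

lemma contr_mem {J : Submodule k (Fin d → k)} {ξ y : Fin d → k}
    (hy : ∀ c ∈ J, ∑ l, c l * y l = 0) (hy1 : ∑ l, ξ l * y l = 1) {q : Fin d → Fin d → k}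
    (hqS : q ∈ S) (hq : q ∈ VJ (J ⊔ k ∙ ξ)) : contr y q ∈ JW S J ξ := by
  rw [mem_JW]
  refine ⟨q, hqS, fun i => ?_⟩
  have := decomp hy hy1 (hq i)
  have h2 := J.neg_mem this
  rw [neg_sub] at h2
  exact h2

lemma exists_section {J : Submodule k (Fin d → k)} {ξ y : Fin d → k}
    (hy : ∀ c ∈ J, ∑ l, c l * y l = 0) (hy1 : ∑ l, ξ l * y l = 1) :
    ∃ Θ : (Fin d → k) →ₗ[k] (Fin d → Fin d → k),
      ∀ c ∈ JW S J ξ, Θ c ∈ S ∧ Θ c ∈ VJ (J ⊔ k ∙ ξ) ∧ contr y (Θ c) = c := by
  let SS : Submodule k (Fin d → Fin d → k) := S ⊓ VJ (J ⊔ k ∙ ξ)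
  let f : SS →ₗ[k] JW S J ξ := ((contr y).comp SS.subtype).codRestrict (JW S J ξ) (by
    intro q
    exact contr_mem hy hy1 q.2.1 q.2.2)
  have hf : Function.Surjective f := by
    rintro ⟨c, hc⟩
    have hc' := hc
    rw [mem_JW] at hc'
    obtain ⟨s, hs, h⟩ := hc'
    have hrow : ∀ i, s i ∈ J ⊔ k ∙ ξ := by
      intro i
      have : s i = -(c i • ξ - s i) + c i • ξ := by abel
      rw [this]
      exact Submodule.add_mem_sup (J.neg_mem (h i))
        (Submodule.smul_mem _ _ (Submodule.mem_span_singleton_self ξ))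
    refine ⟨⟨s, hs, hrow⟩, ?_⟩
    apply Subtype.ext
    funext i
    show ∑ l, s i l * y l = c i
    have h1 : ∑ l, (c i • ξ - s i) l * y l = 0 := hy _ (h i)
    simp only [Pi.sub_apply, Pi.smul_apply, smul_eq_mul, sub_mul, Finset.sum_sub_distrib, mul_assoc,
      ← Finset.mul_sum, hy1, mul_one] at h1
    exact (sub_eq_zero.1 h1).symm
  obtain ⟨g, hg⟩ := LinearMap.exists_rightInverse_of_surjective f (LinearMap.range_eq_top.2 hf)
  obtain ⟨Θ, hΘ⟩ := LinearMap.exists_extend (SS.subtype.comp g)
  refine ⟨Θ, fun c hc => ?_⟩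
  have h1 : Θ c = (g ⟨c, hc⟩ : Fin d → Fin d → k) := by
    have := LinearMap.congr_fun hΘ ⟨c, hc⟩
    exact this
  rw [h1]
  refine ⟨(g ⟨c, hc⟩).2.1, (g ⟨c, hc⟩).2.2, ?_⟩
  have h2 := LinearMap.congr_fun hg ⟨c, hc⟩
  have h3 := congrArg Subtype.val h2
  exact h3

/-- extension of scalars of `Θ` -/
noncomputable def ThB (ι : (Fin d → k) →ₗ[k] B) (Θ : (Fin d → k) →ₗ[k] (Fin d → Fin d → k)) :
    (Fin d → B) →ₗ[B] (Fin d → B) where
  toFun τ := ∑ l, τ l • hat ι (Θ (eb k d l))
  map_add' a b := by simp [add_smul, Finset.sum_add_distrib]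
  map_smul' r a := by simp [Finset.smul_sum, mul_smul]

lemma ThB_vec (Θ : (Fin d → k) →ₗ[k] (Fin d → Fin d → k)) (c : Fin d → k) :
    ThB ι Θ (vec B c) = hat ι (Θ c) := by
  show ∑ l, algebraMap k B (c l) • hat ι (Θ (eb k d l)) = _
  conv_rhs => rw [← sum_eb c, map_sum]
  have : hat ι (∑ l, Θ (c l • eb k d l)) = ∑ l, hat ι (Θ (c l • eb k d l)) :=
    map_sum (hatL ι) _ _
  rw [this]
  refine Finset.sum_congr rfl fun l _ => ?_
  rw [map_smul, hat_smul]

/-- the first key step -/
lemma key1 {J : Submodule k (Fin d → k)} {ξ y : Fin d → k}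
    (hy : ∀ c ∈ J, ∑ l, c l * y l = 0) (hy1 : ∑ l, ξ l * y l = 1)
    (Θ : (Fin d → k) →ₗ[k] (Fin d → Fin d → k))
    (hΘ : ∀ c ∈ JW S J ξ, Θ c ∈ S ∧ Θ c ∈ VJ (J ⊔ k ∙ ξ) ∧ contr y (Θ c) = c)
    (τ : Fin d → B) (hτ : τ ∈ SJ ι S (J ⊔ k ∙ ξ)) :
    ∃ σ ∈ JB B (JW S J ξ), yB B y τ = mu ι σ ∧ τ - ThB ι Θ σ ∈ SJ ι S J := by
  unfold SJ at hτ
  induction hτ using Submodule.span_induction with
  | mem τ h =>
    obtain ⟨q, ⟨hqS, hqJ⟩, rfl⟩ := h
    have hc : contr y q ∈ JW S J ξ := contr_mem hy hy1 hqS hqJ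
    refine ⟨vec B (contr y q), Submodule.subset_span ⟨_, hc, rfl⟩, ?_, ?_⟩
    · rw [yB_hat, mu_vec]
      rfl
    · rw [ThB_vec, ← hat_sub]
      apply Submodule.subset_span
      refine ⟨q - Θ (contr y q), ⟨S.sub_mem hqS (hΘ _ hc).1, ?_⟩, rfl⟩
      intro i
      have h1 := decomp hy hy1 (hqJ i)
      have h2 := decomp hy hy1 ((hΘ _ hc).2.1 i)
      have h3 : ∑ l, (Θ (contr y q)) i l * y l = ∑ l, q i l * y l := by
        have := congrFun (hΘ _ hc).2.2 i
        exact this
      rw [h3] at h2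
      have h4 := J.sub_mem h1 h2
      have h5 : q i - (∑ l, q i l * y l) • ξ - (Θ (contr y q) i - (∑ l, q i l * y l) • ξ)
          = (q - Θ (contr y q)) i := by
        rw [Pi.sub_apply]; abel
      rwa [h5] at h4
  | zero =>
    exact ⟨0, Submodule.zero_mem _, by simp, by simp⟩
  | add a b _ _ ha hb =>
    obtain ⟨σ1, h1, h2, h3⟩ := ha
    obtain ⟨σ2, h4, h5, h6⟩ := hb
    refine ⟨σ1 + σ2, Submodule.add_mem _ h1 h4, by rw [map_add, map_add, h2, h5], ?_⟩
    rw [map_add]
    have := Submodule.add_mem _ h3 h6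
    convert this using 1
    abel
  | smul r a _ ha =>
    obtain ⟨σ1, h1, h2, h3⟩ := ha
    refine ⟨r • σ1, Submodule.smul_mem _ _ h1, by rw [map_smul, map_smul, h2], ?_⟩
    rw [map_smul, ← smul_sub]
    exact Submodule.smul_mem _ _ h3

/-- the second key step -/
lemma key2 (hG : Good ι S) {J : Submodule k (Fin d → k)} {ξ y : Fin d → k}
    (hy : ∀ c ∈ J, ∑ l, c l * y l = 0) (hy1 : ∑ l, ξ l * y l = 1)
    (Θ : (Fin d → k) →ₗ[k] (Fin d → Fin d → k))
    (hΘ : ∀ c ∈ JW S J ξ, Θ c ∈ S ∧ Θ c ∈ VJ (J ⊔ k ∙ ξ) ∧ contr y (Θ c) = c)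
    (σ : Fin d → B) (hσ : σ ∈ SJ ι S (JW S J ξ)) : ThB ι Θ σ ∈ SJ ι S J := by
  unfold SJ at hσ
  induction hσ using Submodule.span_induction with
  | mem σ h =>
    obtain ⟨p, ⟨hpS, hpJ⟩, rfl⟩ := h
    have e1 : ThB ι Θ (hat ι p) = ∑ i, ι (eb k d i) • hat ι (Θ (p i)) := by
      show ∑ l, ι (fun i => p i l) • hat ι (Θ (eb k d l)) = _
      have h1 : ∀ l, ι (fun i => p i l) = ∑ i, algebraMap k B (p i l) * ι (eb k d i) := by
        intro l
        conv_lhs => rw [← sum_eb (fun i => p i l), map_sum]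
        refine Finset.sum_congr rfl fun i _ => ?_
        rw [map_smul, Algebra.smul_def]
      have h2 : ∀ i, hat ι (Θ (p i)) = ∑ l, algebraMap k B (p i l) • hat ι (Θ (eb k d l)) := by
        intro i
        rw [← ThB_vec]
        rfl
      simp only [h1, h2, Finset.sum_smul, Finset.smul_sum]
      rw [Finset.sum_comm]
      refine Finset.sum_congr rfl fun i _ => Finset.sum_congr rfl fun l _ => ?_
      rw [smul_smul, Algebra.commutes]
    -- the tensor
    let x : Fin d → Fin d → Fin d → k := fun i j l => Θ (p i) j l - p i j * ξ l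
    have hx : ∀ i j, x i j ∈ J := by
      intro i j
      have h1 := decomp hy hy1 ((hΘ _ (hpJ i)).2.1 j)
      have h2 : ∑ l, (Θ (p i)) j l * y l = p i j := congrFun (hΘ _ (hpJ i)).2.2 j
      rw [h2] at h1
      exact h1
    obtain ⟨a, b, hab, ha, hb⟩ := hG.deg J x hx ⟨fun i j l => -(p i j * ξ l), fun i => Θ (p i), by
      funext i j l
      simp only [x, Pi.add_apply]
      ring, by
      intro l
      have : (fun i j => -(p i j * ξ l)) = (-ξ l) • p := by
        funext i j
        simp [mul_comm]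
      rw [this]
      exact S.smul_mem _ hpS, fun i => (hΘ _ (hpJ i)).1⟩
    have e2 : ∑ i, ι (eb k d i) • hat ι (Θ (p i)) = ∑ i, ι (eb k d i) • hat ι (b i) := by
      have h3 : ∀ i, Θ (p i) = (fun j l => p i j * ξ l + a i j l) + b i := by
        intro i
        funext j l
        have := congrFun (congrFun (congrFun hab i) j) l
        simp only [x, Pi.add_apply] at this ⊢
        linear_combination this
      have h4 : ∀ i, hat ι (Θ (p i)) = hat ι (fun j l => p i j * ξ l + a i j l) + hat ι (b i) := by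
        intro i
        rw [← hat_add, ← h3 i]
      simp only [h4, smul_add, Finset.sum_add_distrib]
      rw [add_eq_right]
      funext l
      rw [Finset.sum_apply]
      show ∑ i, ι (eb k d i) * ι (fun j => p i j * ξ l + a i j l) = 0
      have h5 : (fun i j => p i j * ξ l + a i j l) ∈ S := by
        have : (fun i j => p i j * ξ l + a i j l) = ξ l • p + (fun i j => a i j l) := by
          funext i j
          simp [mul_comm]
        rw [this]
        exact S.add_mem (S.smul_mem _ hpS) (ha l)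
      exact hG.rel _ h5
    rw [e1, e2]
    exact Submodule.sum_mem _ fun i _ => Submodule.smul_mem _ _
      (Submodule.subset_span ⟨b i, hb i, rfl⟩)
  | zero => rw [map_zero]; exact Submodule.zero_mem _
  | add a b _ _ ha hb => rw [map_add]; exact Submodule.add_mem _ ha hb
  | smul r a _ ha => rw [map_smul]; exact Submodule.smul_mem _ _ ha

lemma JB_mono {J J' : Submodule k (Fin d → k)} (h : J ≤ J') : JB B J ≤ JB B J' :=
  Submodule.span_mono (Set.image_mono h)

lemma yB_JB {J : Submodule k (Fin d → k)} {y : Fin d → k}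
    (hy : ∀ c ∈ J, ∑ l, c l * y l = 0) (τ : Fin d → B) (hτ : τ ∈ JB B J) : yB B y τ = 0 := by
  unfold JB at hτ
  induction hτ using Submodule.span_induction with
  | mem τ h =>
    obtain ⟨c, hc, rfl⟩ := h
    rw [yB_vec, hy c hc, map_zero]
  | zero => rw [map_zero]
  | add a b _ _ ha hb => rw [map_add, ha, hb, add_zero]
  | smul r a _ ha => rw [map_smul, ha, smul_zero]

lemma P_step (hG : Good ι S) (J : Submodule k (Fin d → k)) (ξ : Fin d → k) (hξ : ξ ∉ J)
    (h1 : PP ι S (J ⊔ k ∙ ξ)) (h2 : PP ι S (JW S J ξ)) : PP ι S J := by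
  obtain ⟨y, hy, hy1⟩ := exists_y J ξ hξ
  obtain ⟨Θ, hΘ⟩ := exists_section (S := S) hy hy1
  intro τ hτ hmu
  have h3 := h1 τ (JB_mono le_sup_left hτ) hmu
  obtain ⟨σ, hσ, h4, h5⟩ := key1 hy hy1 Θ hΘ τ h3
  rw [yB_JB hy τ hτ] at h4
  have h6 := key2 hG hy hy1 Θ hΘ σ (h2 σ hσ h4.symm)
  have := Submodule.add_mem _ h5 h6
  rwa [sub_add_cancel] at this

lemma P_all (hG : Good ι S) : ∀ (n : ℕ) (J : Submodule k (Fin d → k)),
    finrank k J + n = d → PP ι S J := by
  intro n
  induction n using Nat.strong_induction_on with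
  | _ n ih =>
    intro J hJ
    by_cases hn : n = 0
    · subst hn
      have : J = ⊤ := by
        apply Submodule.eq_top_of_finrank_eq
        simp at hJ ⊢
        exact hJ
      subst this
      intro τ _ hmu
      exact hG.top τ hmu
    · have hne : J ≠ ⊤ := by
        rintro rfl
        simp at hJ
        exact hn hJ
      obtain ⟨ξ, hξ⟩ : ∃ ξ, ξ ∉ J := by
        by_contra hcon
        push Not at hcon
        exact hne (eq_top_iff.2 fun x _ => hcon x)
      have hlt : J < J ⊔ k ∙ ξ := by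
        refine lt_of_le_of_ne le_sup_left ?_
        intro h
        apply hξ
        rw [h]
        exact Submodule.mem_sup_right (Submodule.mem_span_singleton_self ξ)
      have hlt2 : J < JW S J ξ := lt_of_lt_of_le hlt (hG.le_JW J ξ)
      have f1 := Submodule.finrank_lt_finrank_of_lt hlt
      have f2 := Submodule.finrank_lt_finrank_of_lt hlt2
      have g1 : finrank k (J ⊔ k ∙ ξ : Submodule k (Fin d → k)) ≤ d := by
        have := Submodule.finrank_le (J ⊔ k ∙ ξ)
        simpa using this
      have g2 : finrank k (JW S J ξ) ≤ d := by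
        have := Submodule.finrank_le (JW S J ξ)
        simpa using this
      apply P_step hG J ξ hξ
      · exact ih (d - finrank k (J ⊔ k ∙ ξ : Submodule k (Fin d → k))) (by omega) _ (by omega)
      · exact ih (d - finrank k (JW S J ξ)) (by omega) _ (by omega)

lemma P_any (hG : Good ι S) (J : Submodule k (Fin d → k)) : PP ι S J := by
  have : finrank k J ≤ d := by
    have := Submodule.finrank_le J
    simpa using this
  exact P_all hG (d - finrank k J) J (by omega)

/-- all monomials of length `m` lie in the left ideal generated by `J` -/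
def ZZ (ι : (Fin d → k) →ₗ[k] B) (m : ℕ) (J : Submodule k (Fin d → k)) : Prop :=
  ∀ l : List (Fin d → k), l.length = m →
    (l.map ι).prod ∈ Submodule.span B (ι '' (J : Set (Fin d → k)))

lemma exists_lift {J : Submodule k (Fin d → k)} {b : B}
    (hb : b ∈ Submodule.span B (ι '' (J : Set (Fin d → k)))) : ∃ τ ∈ JB B J, mu ι τ = b := by
  have h1 : (JB B J).map (mu ι) = Submodule.span B (ι '' (J : Set (Fin d → k))) := by
    unfold JB
    rw [Submodule.map_span, Set.image_image]
    simp only [mu_vec]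
  rw [← h1] at hb
  exact hb

lemma mu_mem {J : Submodule k (Fin d → k)} {τ : Fin d → B} (hτ : τ ∈ JB B J) :
    mu ι τ ∈ Submodule.span B (ι '' (J : Set (Fin d → k))) := by
  have h1 : (JB B J).map (mu ι) = Submodule.span B (ι '' (J : Set (Fin d → k))) := by
    unfold JB
    rw [Submodule.map_span, Set.image_image]
    simp only [mu_vec]
  rw [← h1]
  exact Submodule.mem_map_of_mem hτ

lemma Z_step (hG : Good ι S) (m : ℕ) (J : Submodule k (Fin d → k)) (ξ : Fin d → k) (hξ : ξ ∉ J)
    (h : ZZ ι (m + 1) J) : ZZ ι m (JW S J ξ) := by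
  obtain ⟨y, hy, hy1⟩ := exists_y J ξ hξ
  obtain ⟨Θ, hΘ⟩ := exists_section (S := S) hy hy1
  intro l hl
  have h1 := h (l ++ [ξ]) (by simp [hl])
  rw [List.map_append, List.prod_append] at h1
  simp only [List.map_cons, List.map_nil, List.prod_cons, List.prod_nil, mul_one] at h1
  obtain ⟨τ0, hτ0, hmu⟩ := exists_lift h1
  set β := (l.map ι).prod with hβ
  have h2 : β • vec B ξ - τ0 ∈ JB B (J ⊔ k ∙ ξ) := by
    apply Submodule.sub_mem
    · apply Submodule.smul_mem
      apply Submodule.subset_span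
      exact ⟨ξ, Submodule.mem_sup_right (Submodule.mem_span_singleton_self ξ), rfl⟩
    · exact JB_mono le_sup_left hτ0
  have h3 : mu ι (β • vec B ξ - τ0) = 0 := by
    rw [map_sub, map_smul, mu_vec, hmu, smul_eq_mul, sub_self]
  have h4 := P_any hG (J ⊔ k ∙ ξ) _ h2 h3
  obtain ⟨σ, hσ, h5, -⟩ := key1 hy hy1 Θ hΘ _ h4
  rw [map_sub, map_smul, yB_vec, hy1, yB_JB hy τ0 hτ0, map_one, smul_eq_mul, mul_one, sub_zero] at h5
  rw [h5]
  exact mu_mem hσ

/-- dimension of `S + V ⊗ J` -/
noncomputable def aa (S : Submodule k (Fin d → Fin d → k)) (J : Submodule k (Fin d → k)) : ℕ :=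
  finrank k (S ⊔ VJ J : Submodule k (Fin d → Fin d → k))

lemma a_step (S : Submodule k (Fin d → Fin d → k)) (J : Submodule k (Fin d → k)) (ξ : Fin d → k)
    (hξ : ξ ∉ J) : aa S (J ⊔ k ∙ ξ) + finrank k (JW S J ξ) = aa S J + d := by
  have hξ0 : ξ ≠ 0 := by
    rintro rfl
    exact hξ J.zero_mem
  have hinj : Function.Injective (tensL ξ) := by
    intro a b h
    obtain ⟨l, hl⟩ := Function.ne_iff.1 hξ0
    funext i
    have := congrFun (congrFun h i) l
    exact mul_right_cancel₀ hl this
  have h1 : S ⊔ VJ (J ⊔ k ∙ ξ) = (S ⊔ VJ J) ⊔ LinearMap.range (tensL ξ) := by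
    apply le_antisymm
    · rw [sup_le_iff]
      refine ⟨le_sup_of_le_left le_sup_left, ?_⟩
      intro q hq
      obtain ⟨y, hy, hy1⟩ := exists_y J ξ hξ
      have : q = (q - tensL ξ (contr y q)) + tensL ξ (contr y q) := by abel
      rw [this]
      apply Submodule.add_mem_sup
      · apply Submodule.mem_sup_right
        intro i
        exact decomp hy hy1 (hq i)
      · exact LinearMap.mem_range_self _ _
    · rw [sup_le_iff]
      constructor
      · apply sup_le_sup_left
        intro q hq i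
        exact Submodule.mem_sup_left (hq i)
      · rintro _ ⟨c, rfl⟩
        apply Submodule.mem_sup_right
        intro i
        apply Submodule.mem_sup_right
        show c i • ξ ∈ _
        exact Submodule.smul_mem _ _ (Submodule.mem_span_singleton_self ξ)
  have h2 : (S ⊔ VJ J) ⊓ LinearMap.range (tensL ξ) = (JW S J ξ).map (tensL ξ) := by
    apply le_antisymm
    · rintro _ ⟨h, ⟨c, rfl⟩⟩
      exact ⟨c, h, rfl⟩
    · rintro _ ⟨c, hc, rfl⟩
      exact ⟨hc, LinearMap.mem_range_self _ _⟩
  have h3 := Submodule.finrank_sup_add_finrank_inf_eq (S ⊔ VJ J) (LinearMap.range (tensL ξ))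
  rw [← h1, h2, LinearMap.finrank_range_of_inj hinj] at h3
  have h4 : finrank k ((JW S J ξ).map (tensL ξ)) = finrank k (JW S J ξ) :=
    LinearEquiv.finrank_eq (Submodule.equivMapOfInjective _ hinj _).symm
  rw [h4] at h3
  simpa [aa] using h3

lemma JW_mono {J J' : Submodule k (Fin d → k)} (h : J ≤ J') (ξ : Fin d → k) :
    JW S J ξ ≤ JW S J' ξ := by
  unfold JW
  apply Submodule.comap_mono
  apply sup_le_sup_left
  intro q hq i
  exact h (hq i)

lemma climb (J W : Submodule k (Fin d → k)) (m0 : ℕ) (hm : ∀ ξ, ξ ∉ J → m0 ≤ finrank k (JW S J ξ)) :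
    ∀ (n : ℕ) (J1 : Submodule k (Fin d → k)), J ≤ J1 → J1 ≤ W → finrank k J1 + n = finrank k W →
      aa S W + n * m0 ≤ aa S J1 + n * d := by
  intro n
  induction n with
  | zero =>
    intro J1 h1 h2 h3
    have : J1 = W := Submodule.eq_of_le_of_finrank_eq h2 (by omega)
    rw [this]
    omega
  | succ n ih =>
    intro J1 h1 h2 h3
    have hne : ∃ ξ ∈ W, ξ ∉ J1 := by
      by_contra hcon
      push Not at hcon
      have : J1 = W := le_antisymm h2 hcon
      rw [this] at h3
      omega
    obtain ⟨ξ, hξW, hξ⟩ := hne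
    have hξJ : ξ ∉ J := fun h => hξ (h1 h)
    have hstep := a_step S J1 ξ hξ
    have hf : finrank k (J1 ⊔ k ∙ ξ : Submodule k (Fin d → k)) = finrank k J1 + 1 := by
      have hξ0 : ξ ≠ 0 := by
        rintro rfl
        exact hξ J1.zero_mem
      have h4 := Submodule.finrank_sup_add_finrank_inf_eq J1 (k ∙ ξ)
      have h5 : J1 ⊓ k ∙ ξ = ⊥ := by
        rw [Submodule.eq_bot_iff]
        rintro x ⟨hx1, hx2⟩
        rw [SetLike.mem_coe, Submodule.mem_span_singleton] at hx2
        obtain ⟨t, rfl⟩ := hx2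
        by_cases ht : t = 0
        · rw [ht, zero_smul]
        · exfalso
          apply hξ
          have := J1.smul_mem t⁻¹ hx1
          rwa [smul_smul, inv_mul_cancel₀ ht, one_smul] at this
      rw [h5, finrank_bot, finrank_span_singleton hξ0] at h4
      omega
    have h6 := ih (J1 ⊔ k ∙ ξ) (le_sup_of_le_left h1)
      (sup_le h2 ((Submodule.span_singleton_le_iff_mem _ _).2 hξW)) (by omega)
    have h7 : m0 ≤ finrank k (JW S J1 ξ) :=
      (hm ξ hξJ).trans (Submodule.finrank_mono (JW_mono h1 ξ))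
    have e1 : (n + 1) * m0 = n * m0 + m0 := by ring
    have e2 : (n + 1) * d = n * d + d := by ring
    rw [e1, e2]
    omega

lemma base_case (hG : Good ι S) (J : Submodule k (Fin d → k)) (h : ZZ ι 2 J) : S ⊔ VJ J = ⊤ := by
  obtain ⟨π, ε, hε, hπ, hπι, hει, hε1, hπ1⟩ := hG.aug
  have hεal : ∀ c : k, ε (algebraMap k B c) = c := by
    intro c
    rw [Algebra.algebraMap_eq_smul_one, map_smul, hε1, smul_eq_mul, mul_one]
  have hπal : ∀ c : k, π (algebraMap k B c) = 0 := by
    intro c
    rw [Algebra.algebraMap_eq_smul_one, map_smul, hπ1, smul_zero]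
  -- images of the two submodules
  have hS : ∀ τ ∈ SJ ι S ⊤, (fun i l => π (τ l) i) ∈ S ∧ ∀ l, ε (τ l) = 0 := by
    intro τ hτ
    unfold SJ at hτ
    induction hτ using Submodule.span_induction with
    | mem τ h =>
      obtain ⟨q, ⟨hq, -⟩, rfl⟩ := h
      refine ⟨?_, fun l => hει _⟩
      have : (fun i l => π (hat ι q l) i) = q := by
        funext i l
        simp only [hat, hπι]
      rw [this]
      exact hq
    | zero =>
      refine ⟨?_, fun l => by simp⟩
      have : (fun i l => π ((0 : Fin d → B) l) i) = (0 : Fin d → Fin d → k) := by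
        funext i l
        simp
      rw [this]
      exact S.zero_mem
    | add a b _ _ ha hb =>
      refine ⟨?_, fun l => by simp [ha.2 l, hb.2 l]⟩
      have : (fun i l => π ((a + b) l) i) = (fun i l => π (a l) i) + (fun i l => π (b l) i) := by
        funext i l
        simp
      rw [this]
      exact S.add_mem ha.1 hb.1
    | smul r a _ ha =>
      refine ⟨?_, fun l => by simp [hε, ha.2 l]⟩
      have : (fun i l => π ((r • a) l) i) = ε r • (fun i l => π (a l) i) := by
        funext i l
        simp [hπ, ha.2 l]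
      rw [this]
      exact S.smul_mem _ ha.1
  have hJ : ∀ τ ∈ JB B J, (fun i l => π (τ l) i) ∈ VJ J ∧ (fun l => ε (τ l)) ∈ J := by
    intro τ hτ
    unfold JB at hτ
    induction hτ using Submodule.span_induction with
    | mem τ h =>
      obtain ⟨c, hc, rfl⟩ := h
      constructor
      · have : (fun i l => π (vec B c l) i) = (0 : Fin d → Fin d → k) := by
          funext i l
          simp [vec, hπal]
        rw [this]
        exact Submodule.zero_mem _
      · have : (fun l => ε (vec B c l)) = c := by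
          funext l
          simp [vec, hεal]
        rw [this]
        exact hc
    | zero =>
      constructor
      · have : (fun i l => π ((0 : Fin d → B) l) i) = (0 : Fin d → Fin d → k) := by
          funext i l
          simp
        rw [this]
        exact Submodule.zero_mem _
      · have : (fun l => ε ((0 : Fin d → B) l)) = (0 : Fin d → k) := by
          funext l
          simp
        rw [this]
        exact Submodule.zero_mem _
    | add a b _ _ ha hb =>
      constructor
      · have : (fun i l => π ((a + b) l) i) = (fun i l => π (a l) i) + (fun i l => π (b l) i) := by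
          funext i l
          simp
        rw [this]
        exact Submodule.add_mem _ ha.1 hb.1
      · have : (fun l => ε ((a + b) l)) = (fun l => ε (a l)) + (fun l => ε (b l)) := by
          funext l
          simp
        rw [this]
        exact Submodule.add_mem _ ha.2 hb.2
    | smul r a _ ha =>
      constructor
      · intro i
        have : (fun l => π ((r • a) l) i) = ε r • (fun l => π (a l) i) + π r i • (fun l => ε (a l)) := by
          funext l
          simp [hπ, mul_comm]
        show (fun l => π ((r • a) l) i) ∈ J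
        rw [this]
        exact J.add_mem (J.smul_mem _ (ha.1 i)) (J.smul_mem _ ha.2)
      · have : (fun l => ε ((r • a) l)) = ε r • (fun l => ε (a l)) := by
          funext l
          simp [hε]
        rw [this]
        exact Submodule.smul_mem _ _ ha.2
  -- elementary tensors
  have helem : ∀ u v : Fin d → k, tens u v ∈ S ⊔ VJ J := by
    intro u v
    have h1 := h [u, v] rfl
    simp only [List.map_cons, List.map_nil, List.prod_cons, List.prod_nil, mul_one] at h1
    obtain ⟨τ0, hτ0, hmu⟩ := exists_lift h1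
    have h2 : mu ι (ι u • vec B v - τ0) = 0 := by
      rw [map_sub, map_smul, mu_vec, hmu, smul_eq_mul, sub_self]
    have h3 := (hS _ (hG.top _ h2)).1
    have h4 := (hJ _ hτ0).1
    have h5 : tens u v = (fun i l => π ((ι u • vec B v - τ0) l) i) + (fun i l => π (τ0 l) i) := by
      funext i l
      simp [tens, vec, hπ, hπι, hει, hπal, hεal]
      ring
    rw [h5]
    exact Submodule.add_mem_sup h3 h4
  rw [eq_top_iff]
  intro q _
  have : q = ∑ i, tens (eb k d i) (q i) := by
    funext i l
    simp [tens, Finset.sum_apply, Pi.single_apply]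
  rw [this]
  exact Submodule.sum_mem _ fun i _ => helem _ _

lemma finrank_T2 : finrank k (Fin d → Fin d → k) = d * d := by
  rw [Module.finrank_pi_fintype]
  simp

theorem main_ineq (hG : Good ι S) : ∀ (n : ℕ), ∀ J : Submodule k (Fin d → k), ZZ ι (n + 2) J →
    2 * ((n : ℤ) + 1) * ((d : ℤ) * d - aa S J) ≤ n * ((d : ℤ) - finrank k J) ^ 2 := by
  intro n
  induction n with
  | zero =>
    intro J h
    have h1 := base_case hG J h
    have h2 : aa S J = d * d := by
      unfold aa
      rw [h1, finrank_top, finrank_T2]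
    rw [h2]
    push_cast
    simp
  | succ n ih =>
    intro J h
    by_cases hJ : J = ⊤
    · have h2 : aa S J = d * d := by
        unfold aa
        have : S ⊔ VJ J = ⊤ := by
          rw [eq_top_iff]
          intro q _
          apply Submodule.mem_sup_right
          intro i
          rw [hJ]
          exact Submodule.mem_top
        rw [this, finrank_top, finrank_T2]
      rw [h2]
      push_cast
      have : (0 : ℤ) ≤ ((n : ℤ) + 1) * ((d : ℤ) - finrank k J) ^ 2 := by positivity
      linarith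
    · have hex : ∃ ξ, ξ ∉ J := by
        by_contra hcon
        push Not at hcon
        exact hJ (eq_top_iff.2 fun x _ => hcon x)
      -- minimise the dimension of J_W
      obtain ⟨ξ0, hξ0, hmin⟩ : ∃ ξ0, ξ0 ∉ J ∧ ∀ ξ, ξ ∉ J →
          finrank k (JW S J ξ0) ≤ finrank k (JW S J ξ) := by
        classical
        have hne : ∃ m : ℕ, ∃ ξ, ξ ∉ J ∧ finrank k (JW S J ξ) = m := by
          obtain ⟨ξ, hξ⟩ := hex
          exact ⟨_, ξ, hξ, rfl⟩
        obtain ⟨ξ0, h1, h2⟩ := Nat.find_spec hne
        refine ⟨ξ0, h1, fun ξ hξ => ?_⟩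
        rw [h2]
        exact Nat.find_min' hne ⟨ξ, hξ, rfl⟩
      set W := JW S J ξ0 with hW
      have hJW : J ≤ W := le_trans le_sup_left (hG.le_JW J ξ0)
      have hle : finrank k J ≤ finrank k W := Submodule.finrank_mono hJW
      have hWd : finrank k W ≤ d := by
        have := Submodule.finrank_le W
        simpa using this
      have hc := climb (S := S) J W (finrank k W) hmin (finrank k W - finrank k J) J le_rfl hJW
        (by omega)
      have hi := ih W (Z_step hG (n + 2) J ξ0 hξ0 h)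
      -- arithmetic
      zify [hle] at hc
      set N : ℤ := (d : ℤ) - finrank k J with hN
      set w : ℤ := (d : ℤ) - finrank k W with hw
      have e1 : ((finrank k W : ℤ) - finrank k J) = N - w := by rw [hN, hw]; ring
      rw [e1] at hc
      have e2 : (aa S W : ℤ) ≤ aa S J + (N - w) * w := by
        have : (N - w) * w = (N - w) * d - (N - w) * finrank k W := by rw [hw]; ring
        linarith
      set A : ℤ := (d : ℤ) * d - aa S J with hA
      set A' : ℤ := (d : ℤ) * d - aa S W with hA'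
      have e3 : A ≤ A' + (N - w) * w := by rw [hA, hA']; linarith
      push_cast
      have hn : (0 : ℤ) ≤ n := by positivity
      -- 2 (n+1) A' ≤ n w^2
      have e4 : 2 * ((n : ℤ) + 1) * A ≤ n * w ^ 2 + 2 * ((n : ℤ) + 1) * ((N - w) * w) := by
        nlinarith
      have e5 : ((n : ℤ) + 1) * (2 * ((n : ℤ) + 1 + 1) * A) ≤ ((n : ℤ) + 1) * (((n : ℤ) + 1) * N ^ 2) := by
        have e6 : 0 ≤ (((n : ℤ) + 1) * N - ((n : ℤ) + 2) * w) ^ 2 := sq_nonneg _
        have e7 : ((n : ℤ) + 2) * (2 * ((n : ℤ) + 1) * A) ≤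
            ((n : ℤ) + 2) * (n * w ^ 2 + 2 * ((n : ℤ) + 1) * ((N - w) * w)) :=
          mul_le_mul_of_nonneg_left e4 (by linarith)
        nlinarith
      exact le_of_mul_le_mul_left e5 (by linarith)

end Pool.Agent.Helper83.BK
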