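import Pool.Agent.Helper83.BK.StarLie

set_option autoImplicit false

namespace Pool.Agent.Helper83.BK

open Submodule Module

universe u v w

section tri

variable {k : Type u} [Field k] {d : ℕ} {W : Type v} [AddCommGroup W] [Module k W]

lemma lin_sum (f : (Fin d → k) → W) (hf : IsLinearMap k f) (v : Fin d → k) :
    ∑ i, v i • f (eb k d i) = f v := by
  have h1 : ∀ x, f x = (IsLinearMap.mk' f hf) x := fun x => rfl
  simp only [h1]
  conv_rhs => rw [← sum_eb v]
  rw [map_sum]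
  simp only [map_smul]

/-- trilinearity -/
structure TriLin (β : (Fin d → k) → (Fin d → k) → (Fin d → k) → W) : Prop where
  l1 : ∀ b c, IsLinearMap k (fun a => β a b c)
  l2 : ∀ a c, IsLinearMap k (fun b => β a b c)
  l3 : ∀ a b, IsLinearMap k (fun c => β a b c)

lemma tri_proj {Y : Submodule k (Fin d → k)} {t : Fin d → Fin d → Fin d → k} (ht : InY Y t)
    {β : (Fin d → k) → (Fin d → k) → (Fin d → k) → W} (hβ : TriLin β)
    (P : (Fin d → k) →ₗ[k] (Fin d → k)) (hP : ∀ y ∈ Y, P y = y) :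
    ∑ i, ∑ j, ∑ l, t i j l • β (eb k d i) (eb k d j) (eb k d l) =
      ∑ i, ∑ j, ∑ l, t i j l • β (P (eb k d i)) (P (eb k d j)) (P (eb k d l)) := by
  have hcomp : ∀ f : (Fin d → k) → W, IsLinearMap k f → IsLinearMap k (fun a => f (P a)) := by
    intro f hf
    exact ⟨fun a b => by rw [map_add, hf.1], fun c a => by rw [map_smul, hf.2]⟩
  have s3 : ∀ i j, ∑ l, t i j l • β (eb k d i) (eb k d j) (eb k d l) =
      ∑ l, t i j l • β (eb k d i) (eb k d j) (P (eb k d l)) := by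
    intro i j
    rw [lin_sum _ (hβ.l3 _ _) (t i j), lin_sum _ (hcomp _ (hβ.l3 _ _)) (t i j), hP _ (ht.1 i j)]
  have s2 : ∀ i l, ∑ j, t i j l • β (eb k d i) (eb k d j) (P (eb k d l)) =
      ∑ j, t i j l • β (eb k d i) (P (eb k d j)) (P (eb k d l)) := by
    intro i l
    rw [lin_sum _ (hβ.l2 _ _) (fun j => t i j l),
      lin_sum _ (hcomp _ (hβ.l2 _ _)) (fun j => t i j l), hP _ (ht.2.1 i l)]
  have s1 : ∀ j l, ∑ i, t i j l • β (eb k d i) (P (eb k d j)) (P (eb k d l)) =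
      ∑ i, t i j l • β (P (eb k d i)) (P (eb k d j)) (P (eb k d l)) := by
    intro j l
    rw [lin_sum _ (hβ.l1 _ _) (fun i => t i j l),
      lin_sum _ (hcomp _ (hβ.l1 _ _)) (fun i => t i j l), hP _ (ht.2.2 j l)]
  calc ∑ i, ∑ j, ∑ l, t i j l • β (eb k d i) (eb k d j) (eb k d l)
      = ∑ i, ∑ j, ∑ l, t i j l • β (eb k d i) (eb k d j) (P (eb k d l)) :=
        Finset.sum_congr rfl fun i _ => Finset.sum_congr rfl fun j _ => s3 i j
    _ = ∑ i, ∑ l, ∑ j, t i j l • β (eb k d i) (eb k d j) (P (eb k d l)) :=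
        Finset.sum_congr rfl fun i _ => Finset.sum_comm
    _ = ∑ i, ∑ l, ∑ j, t i j l • β (eb k d i) (P (eb k d j)) (P (eb k d l)) :=
        Finset.sum_congr rfl fun i _ => Finset.sum_congr rfl fun l _ => s2 i l
    _ = ∑ i, ∑ j, ∑ l, t i j l • β (eb k d i) (P (eb k d j)) (P (eb k d l)) :=
        Finset.sum_congr rfl fun i _ => Finset.sum_comm
    _ = ∑ j, ∑ i, ∑ l, t i j l • β (eb k d i) (P (eb k d j)) (P (eb k d l)) := Finset.sum_comm
    _ = ∑ j, ∑ l, ∑ i, t i j l • β (eb k d i) (P (eb k d j)) (P (eb k d l)) :=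
        Finset.sum_congr rfl fun i _ => Finset.sum_comm
    _ = ∑ j, ∑ l, ∑ i, t i j l • β (P (eb k d i)) (P (eb k d j)) (P (eb k d l)) :=
        Finset.sum_congr rfl fun j _ => Finset.sum_congr rfl fun l _ => s1 j l
    _ = ∑ j, ∑ i, ∑ l, t i j l • β (P (eb k d i)) (P (eb k d j)) (P (eb k d l)) :=
        Finset.sum_congr rfl fun i _ => Finset.sum_comm
    _ = ∑ i, ∑ j, ∑ l, t i j l • β (P (eb k d i)) (P (eb k d j)) (P (eb k d l)) :=
        Finset.sum_comm

lemma exists_proj (Y : Submodule k (Fin d → k)) :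
    ∃ P : (Fin d → k) →ₗ[k] Y, ∀ y : Y, P y = y := by
  obtain ⟨p, hp⟩ := Y.subtype.exists_leftInverse_of_injective
    (LinearMap.ker_eq_bot.2 Y.injective_subtype)
  exact ⟨p, fun y => LinearMap.congr_fun hp y⟩

lemma tri_agree {Y : Submodule k (Fin d → k)} {t : Fin d → Fin d → Fin d → k} (ht : InY Y t)
    {β β' : (Fin d → k) → (Fin d → k) → (Fin d → k) → W} (hβ : TriLin β) (hβ' : TriLin β')
    (h : ∀ a ∈ Y, ∀ b ∈ Y, ∀ c ∈ Y, β a b c = β' a b c) :
    ∑ i, ∑ j, ∑ l, t i j l • β (eb k d i) (eb k d j) (eb k d l) =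
      ∑ i, ∑ j, ∑ l, t i j l • β' (eb k d i) (eb k d j) (eb k d l) := by
  obtain ⟨p, hp⟩ := exists_proj Y
  rw [tri_proj ht hβ (Y.subtype ∘ₗ p) (fun y hy => congrArg Subtype.val (hp ⟨y, hy⟩)),
    tri_proj ht hβ' (Y.subtype ∘ₗ p) (fun y hy => congrArg Subtype.val (hp ⟨y, hy⟩))]
  refine Finset.sum_congr rfl fun i _ => Finset.sum_congr rfl fun j _ =>
    Finset.sum_congr rfl fun l _ => ?_
  exact congrArg (fun w => t i j l • w) (h _ (p (eb k d i)).2 _ (p (eb k d j)).2 _ (p (eb k d l)).2)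

end tri

section model

variable {k : Type u} [Field k] {d : ℕ} {L : Type v} [LieRing L] [LieAlgebra k L]

/-- one Jacobi element -/
def jac (E : (Fin d → k) →ₗ[k] L) (a b c : Fin d → k) : Fin d → L :=
  fun i => a i • ⁅E b, E c⁆ + b i • ⁅E c, E a⁆ + c i • ⁅E a, E b⁆

/-- span of the Jacobi elements -/
def Jac (E : (Fin d → k) →ₗ[k] L) (Y : Submodule k (Fin d → k)) : Submodule k (Fin d → L) :=
  Submodule.span k {z | ∃ a ∈ Y, ∃ b ∈ Y, ∃ c ∈ Y, z = jac E a b c}

/-- `y ⊗ x` -/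
def yx (y : Fin d → k) (x : L) : Fin d → L := fun i => y i • x

lemma yx_add_left (y y' : Fin d → k) (x : L) : yx (y + y') x = yx y x + yx y' x := by
  funext i; simp [yx, add_smul]

lemma yx_add_right (y : Fin d → k) (x x' : L) : yx y (x + x') = yx y x + yx y x' := by
  funext i; simp [yx]

lemma yx_smul_left (c : k) (y : Fin d → k) (x : L) : yx (c • y) x = c • yx y x := by
  funext i; simp [yx, mul_smul]

lemma yx_smul_right (c : k) (y : Fin d → k) (x : L) : yx y (c • x) = c • yx y x := by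
  funext i; simp [yx, smul_comm c]

lemma yx_zero_right (y : Fin d → k) : yx y (0 : L) = 0 := by
  funext i; simp [yx]

lemma yx_zero_left (x : L) : yx (0 : Fin d → k) x = 0 := by
  funext i; simp [yx]

/-- the model Lie algebra of class three -/
def NN (E : (Fin d → k) →ₗ[k] L) (Y : Submodule k (Fin d → k)) : Type (max u v) :=
  Y × L × ((Fin d → L) ⧸ Jac E Y)

variable (E : (Fin d → k) →ₗ[k] L) (Y : Submodule k (Fin d → k))

instance : AddCommGroup (NN E Y) := inferInstanceAs (AddCommGroup (Y × L × ((Fin d → L) ⧸ Jac E Y)))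

instance : Module k (NN E Y) := inferInstanceAs (Module k (Y × L × ((Fin d → L) ⧸ Jac E Y)))

/-- constructor -/
def mkN (y : Y) (x : L) (q : (Fin d → L) ⧸ Jac E Y) : NN E Y := (y, x, q)

/-- first component -/
def n1 (p : NN E Y) : Fin d → k := (show Y from p.1).1

/-- second component -/
def n2 (p : NN E Y) : L := p.2.1

variable {E Y}

lemma n1_mem (p : NN E Y) : n1 E Y p ∈ Y := (show Y from p.1).2

lemma n1_mk (y : Y) (x : L) (q : (Fin d → L) ⧸ Jac E Y) : n1 E Y (mkN E Y y x q) = y := rfl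
lemma n2_mk (y : Y) (x : L) (q : (Fin d → L) ⧸ Jac E Y) : n2 E Y (mkN E Y y x q) = x := rfl
lemma n1_add (p q : NN E Y) : n1 E Y (p + q) = n1 E Y p + n1 E Y q := rfl
lemma n2_add (p q : NN E Y) : n2 E Y (p + q) = n2 E Y p + n2 E Y q := rfl
lemma n1_smul (c : k) (p : NN E Y) : n1 E Y (c • p) = c • n1 E Y p := rfl
lemma n2_smul (c : k) (p : NN E Y) : n2 E Y (c • p) = c • n2 E Y p := rfl

instance : Bracket (NN E Y) (NN E Y) where
  bracket p q := mkN E Y 0 ⁅E (n1 E Y p), E (n1 E Y q)⁆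
    ((Jac E Y).mkQ (yx (n1 E Y p) (n2 E Y q) - yx (n1 E Y q) (n2 E Y p)))

lemma br_def (p q : NN E Y) :
    ⁅p, q⁆ = mkN E Y 0 ⁅E (n1 E Y p), E (n1 E Y q)⁆
    ((Jac E Y).mkQ (yx (n1 E Y p) (n2 E Y q) - yx (n1 E Y q) (n2 E Y p))) := rfl

lemma mkN_add (y y' : Y) (x x' : L) (q q' : (Fin d → L) ⧸ Jac E Y) :
    mkN E Y y x q + mkN E Y y' x' q' = mkN E Y (y + y') (x + x') (q + q') := rfl

lemma mkN_smul (c : k) (y : Y) (x : L) (q : (Fin d → L) ⧸ Jac E Y) :
    c • mkN E Y y x q = mkN E Y (c • y) (c • x) (c • q) := rfl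

lemma mkN_zero : mkN E Y 0 0 0 = 0 := rfl

instance : LieRing (NN E Y) where
  add_lie p q r := by
    rw [br_def, br_def, br_def, mkN_add, n1_add, n2_add]
    congr 1
    · simp
    · rw [map_add, add_lie]
    · rw [← map_add, yx_add_left, yx_add_right]
      congr 1
      abel
  lie_add p q r := by
    rw [br_def, br_def, br_def, mkN_add, n1_add, n2_add]
    congr 1
    · simp
    · rw [map_add, lie_add]
    · rw [← map_add, yx_add_left, yx_add_right]
      congr 1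
      abel
  lie_self p := by
    rw [br_def, lie_self, sub_self, map_zero]
    rfl
  leibniz_lie p q r := by
    rw [br_def p, br_def ⁅p, q⁆, br_def q ⁅p, r⁆, mkN_add, br_def p q,
      br_def q r, br_def p r]
    simp only [n1_mk, n2_mk, Submodule.coe_zero, map_zero, lie_zero, zero_lie, yx_zero_left,
      sub_zero, zero_sub, add_zero]
    congr 1
    rw [← map_add, ← sub_eq_zero, ← map_sub, Submodule.mkQ_apply, Submodule.Quotient.mk_eq_zero]
    have : yx (n1 E Y p) ⁅E (n1 E Y q), E (n1 E Y r)⁆ -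
        (-yx (n1 E Y r) ⁅E (n1 E Y p), E (n1 E Y q)⁆ +
          yx (n1 E Y q) ⁅E (n1 E Y p), E (n1 E Y r)⁆) =
        jac E (n1 E Y p) (n1 E Y q) (n1 E Y r) := by
      funext i
      show n1 E Y p i • ⁅E (n1 E Y q), E (n1 E Y r)⁆ -
        (-(n1 E Y r i • ⁅E (n1 E Y p), E (n1 E Y q)⁆) +
          n1 E Y q i • ⁅E (n1 E Y p), E (n1 E Y r)⁆) =
        n1 E Y p i • ⁅E (n1 E Y q), E (n1 E Y r)⁆ + n1 E Y q i • ⁅E (n1 E Y r), E (n1 E Y p)⁆ +
          n1 E Y r i • ⁅E (n1 E Y p), E (n1 E Y q)⁆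
      rw [← lie_skew (E (n1 E Y p)) (E (n1 E Y r)), smul_neg]
      abel
    rw [this]
    exact Submodule.subset_span ⟨_, n1_mem p, _, n1_mem q, _, n1_mem r, rfl⟩

instance : LieAlgebra k (NN E Y) where
  lie_smul c p q := by
    rw [br_def, br_def, n1_smul, n2_smul, mkN_smul, map_smul, lie_smul, smul_zero,
      yx_smul_left, yx_smul_right, ← smul_sub, map_smul]

end model

end Pool.Agent.Helper83.BK
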