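import Pool.Agent.Helper83.BK.Combi

set_option autoImplicit false

namespace Pool.Agent.Helper83.BK

open Submodule Module

universe u

variable {k : Type u} [Field k] {d : ℕ}

section general

variable {X : Type u} [AddCommGroup X] [Module k X] [FiniteDimensional k X]

/-- orthogonal complement with respect to an identification with the dual -/
def per (e : X ≃ₗ[k] Dual k X) (P : Submodule k X) : Submodule k X :=
  P.dualAnnihilator.comap e.toLinearMap

lemma mem_per {e : X ≃ₗ[k] Dual k X} {P : Submodule k X} {x : X} :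
    x ∈ per e P ↔ ∀ t ∈ P, e x t = 0 := by
  unfold per
  rw [Submodule.mem_comap, Submodule.mem_dualAnnihilator]
  rfl

lemma per_sup (e : X ≃ₗ[k] Dual k X) (P Q : Submodule k X) : per e (P ⊔ Q) = per e P ⊓ per e Q := by
  unfold per
  rw [Submodule.dualAnnihilator_sup_eq]
  rfl

lemma per_inf (e : X ≃ₗ[k] Dual k X) (P Q : Submodule k X) : per e (P ⊓ Q) = per e P ⊔ per e Q := by
  apply le_antisymm
  · intro x hx
    unfold per at hx ⊢
    rw [Submodule.mem_comap, Subspace.dualAnnihilator_inf_eq, Submodule.mem_sup] at hx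
    obtain ⟨f, hf, g, hg, h⟩ := hx
    have : x = e.symm f + e.symm g := by
      rw [← map_add, h]
      simp
    rw [this]
    apply Submodule.add_mem_sup
    · rw [Submodule.mem_comap]; simpa using hf
    · rw [Submodule.mem_comap]; simpa using hg
  · rw [sup_le_iff]
    constructor
    · intro x hx
      rw [mem_per] at hx ⊢
      exact fun t ht => hx t ht.1
    · intro x hx
      rw [mem_per] at hx ⊢
      exact fun t ht => hx t ht.2

lemma finrank_per (e : X ≃ₗ[k] Dual k X) (P : Submodule k X) :
    finrank k (per e P) + finrank k P = finrank k X := by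
  have h1 := Subspace.finrank_add_finrank_dualAnnihilator_eq P
  have h2 : finrank k (per e P) = finrank k P.dualAnnihilator := by
    unfold per
    rw [Submodule.comap_equiv_eq_map_symm]
    exact LinearEquiv.finrank_map_eq e.symm _
  omega

lemma per_per (e : X ≃ₗ[k] Dual k X) (he : ∀ x y, e x y = e y x) (P : Submodule k X) :
    per e (per e P) = P := by
  symm
  apply Submodule.eq_of_le_of_finrank_eq
  · intro x hx
    rw [mem_per]
    intro t ht
    rw [mem_per] at ht
    rw [he]
    exact ht x hx
  · have h1 := finrank_per e P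
    have h2 := finrank_per e (per e P)
    omega

end general

/-- pairing on vectors -/
noncomputable def pair1 : (Fin d → k) →ₗ[k] Dual k (Fin d → k) :=
  LinearMap.mk₂ k (fun x t => ∑ i, x i * t i)
    (by intro a b c; simp [add_mul, Finset.sum_add_distrib])
    (by intro a b c; simp [Finset.mul_sum, mul_assoc])
    (by intro a b c; simp [mul_add, Finset.sum_add_distrib])
    (by intro a b c; simp [Finset.mul_sum, mul_left_comm])

/-- pairing on two-tensors -/
noncomputable def pair2 : (Fin d → Fin d → k) →ₗ[k] Dual k (Fin d → Fin d → k) :=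
  LinearMap.mk₂ k (fun x t => ∑ i, ∑ j, x i j * t i j)
    (by intro a b c; simp [add_mul, Finset.sum_add_distrib])
    (by intro a b c; simp [Finset.mul_sum, mul_assoc])
    (by intro a b c; simp [mul_add, Finset.sum_add_distrib])
    (by intro a b c; simp [Finset.mul_sum, mul_left_comm])

/-- pairing on three-tensors -/
noncomputable def pair3 :
    (Fin d → Fin d → Fin d → k) →ₗ[k] Dual k (Fin d → Fin d → Fin d → k) :=
  LinearMap.mk₂ k (fun x t => ∑ i, ∑ j, ∑ l, x i j l * t i j l)
    (by intro a b c; simp [add_mul, Finset.sum_add_distrib])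
    (by intro a b c; simp [Finset.mul_sum, mul_assoc])
    (by intro a b c; simp [mul_add, Finset.sum_add_distrib])
    (by intro a b c; simp [Finset.mul_sum, mul_left_comm])

lemma pair1_apply (x t : Fin d → k) : pair1 x t = ∑ i, x i * t i := rfl
lemma pair2_apply (x t : Fin d → Fin d → k) : pair2 x t = ∑ i, ∑ j, x i j * t i j := rfl
lemma pair3_apply (x t : Fin d → Fin d → Fin d → k) :
    pair3 x t = ∑ i, ∑ j, ∑ l, x i j l * t i j l := rfl

lemma pair1_inj : Function.Injective (pair1 (k := k) (d := d)) := by
  rw [injective_iff_map_eq_zero]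
  intro x hx
  funext i
  have := LinearMap.congr_fun hx (Pi.single i 1)
  rw [pair1_apply] at this
  simpa [Pi.single_apply] using this

lemma sum2_single (x : Fin d → Fin d → k) (i : Fin d) (w : Fin d → k) :
    ∑ i', ∑ j, x i' j * (Pi.single i w : Fin d → Fin d → k) i' j = ∑ j, x i j * w j := by
  rw [Finset.sum_eq_single i]
  · simp
  · intro b _ hb
    apply Finset.sum_eq_zero
    intro j _
    rw [Pi.single_eq_of_ne hb]
    simp
  · intro h
    exact absurd (Finset.mem_univ i) h

lemma sum3_single (x : Fin d → Fin d → Fin d → k) (i : Fin d) (w : Fin d → Fin d → k) :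
    ∑ i', ∑ j, ∑ l, x i' j l * (Pi.single i w : Fin d → Fin d → Fin d → k) i' j l =
      ∑ j, ∑ l, x i j l * w j l := by
  rw [Finset.sum_eq_single i]
  · simp
  · intro b _ hb
    apply Finset.sum_eq_zero
    intro j _
    rw [Pi.single_eq_of_ne hb]
    simp
  · intro h
    exact absurd (Finset.mem_univ i) h

lemma pair2_inj : Function.Injective (pair2 (k := k) (d := d)) := by
  rw [injective_iff_map_eq_zero]
  intro x hx
  funext i j
  have := LinearMap.congr_fun hx (Pi.single i (Pi.single j 1))
  rw [pair2_apply, sum2_single] at this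
  simpa [Pi.single_apply] using this

lemma pair3_inj : Function.Injective (pair3 (k := k) (d := d)) := by
  rw [injective_iff_map_eq_zero]
  intro x hx
  funext i j l
  have := LinearMap.congr_fun hx (Pi.single i (Pi.single j (Pi.single l 1)))
  rw [pair3_apply, sum3_single, sum2_single] at this
  simpa [Pi.single_apply] using this

/-- duality for vectors -/
noncomputable def e1 (k : Type u) [Field k] (d : ℕ) : (Fin d → k) ≃ₗ[k] Dual k (Fin d → k) :=
  LinearMap.linearEquivOfInjective pair1 pair1_inj Subspace.dual_finrank_eq.symm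

/-- duality for two-tensors -/
noncomputable def e2 (k : Type u) [Field k] (d : ℕ) :
    (Fin d → Fin d → k) ≃ₗ[k] Dual k (Fin d → Fin d → k) :=
  LinearMap.linearEquivOfInjective pair2 pair2_inj Subspace.dual_finrank_eq.symm

/-- duality for three-tensors -/
noncomputable def e3 (k : Type u) [Field k] (d : ℕ) :
    (Fin d → Fin d → Fin d → k) ≃ₗ[k] Dual k (Fin d → Fin d → Fin d → k) :=
  LinearMap.linearEquivOfInjective pair3 pair3_inj Subspace.dual_finrank_eq.symm

lemma e1_apply (x t : Fin d → k) : e1 k d x t = ∑ i, x i * t i := rfl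
lemma e2_apply (x t : Fin d → Fin d → k) : e2 k d x t = ∑ i, ∑ j, x i j * t i j := rfl
lemma e3_apply (x t : Fin d → Fin d → Fin d → k) :
    e3 k d x t = ∑ i, ∑ j, ∑ l, x i j l * t i j l := rfl

/-- tensors with all right slices in `R` -/
def RV (R : Submodule k (Fin d → Fin d → k)) : Submodule k (Fin d → Fin d → Fin d → k) where
  carrier := {t | ∀ l, (fun i j => t i j l) ∈ R}
  add_mem' ha hb l := R.add_mem (ha l) (hb l)
  zero_mem' l := R.zero_mem
  smul_mem' c _ ha l := R.smul_mem c (ha l)

/-- tensors with all left slices in `R` -/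
def VR (R : Submodule k (Fin d → Fin d → k)) : Submodule k (Fin d → Fin d → Fin d → k) where
  carrier := {t | ∀ i, t i ∈ R}
  add_mem' ha hb l := R.add_mem (ha l) (hb l)
  zero_mem' l := R.zero_mem
  smul_mem' c _ ha l := R.smul_mem c (ha l)

/-- tensors with last slot in `Y` -/
def VVY (Y : Submodule k (Fin d → k)) : Submodule k (Fin d → Fin d → Fin d → k) where
  carrier := {t | ∀ i j, t i j ∈ Y}
  add_mem' ha hb i j := Y.add_mem (ha i j) (hb i j)
  zero_mem' i j := Y.zero_mem
  smul_mem' c _ ha i j := Y.smul_mem c (ha i j)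

lemma per_VVY (Y : Submodule k (Fin d → k)) : per (e3 k d) (VVY Y) = VVY (per (e1 k d) Y) := by
  ext x
  constructor
  · intro hx i j
    rw [mem_per] at hx ⊢
    intro y hy
    have h1 : (Pi.single i (Pi.single j y) : Fin d → Fin d → Fin d → k) ∈ VVY Y := by
      intro i' j'
      by_cases hi : i' = i
      · subst hi
        rw [Pi.single_eq_same]
        by_cases hj : j' = j
        · subst hj
          rw [Pi.single_eq_same]
          exact hy
        · rw [Pi.single_eq_of_ne hj]
          exact Y.zero_mem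
      · rw [Pi.single_eq_of_ne hi]
        exact Y.zero_mem
    have h2 := hx _ h1
    rw [e3_apply, sum3_single, sum2_single] at h2
    exact h2
  · intro hx
    rw [mem_per]
    intro t ht
    rw [e3_apply]
    refine Finset.sum_eq_zero fun i _ => Finset.sum_eq_zero fun j _ => ?_
    have := hx i j
    rw [mem_per] at this
    exact this _ (ht i j)

lemma per_VR (R : Submodule k (Fin d → Fin d → k)) :
    per (e3 k d) (VR R) = VR (per (e2 k d) R) := by
  ext x
  constructor
  · intro hx i
    rw [mem_per] at hx ⊢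
    intro r hr
    have h1 : (Pi.single i r : Fin d → Fin d → Fin d → k) ∈ VR R := by
      intro i'
      by_cases hi : i' = i
      · subst hi
        rw [Pi.single_eq_same]
        exact hr
      · rw [Pi.single_eq_of_ne hi]
        exact R.zero_mem
    have h2 := hx _ h1
    rw [e3_apply, sum3_single] at h2
    exact h2
  · intro hx
    rw [mem_per]
    intro t ht
    rw [e3_apply]
    refine Finset.sum_eq_zero fun i _ => ?_
    have := hx i
    rw [mem_per] at this
    exact this _ (ht i)

lemma per_RV (R : Submodule k (Fin d → Fin d → k)) :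
    per (e3 k d) (RV R) = RV (per (e2 k d) R) := by
  ext x
  have hswap : ∀ t : Fin d → Fin d → Fin d → k, e3 k d x t =
      ∑ l, ∑ i, ∑ j, x i j l * t i j l := by
    intro t
    rw [e3_apply]
    have : ∀ i, ∑ j, ∑ l, x i j l * t i j l = ∑ l, ∑ j, x i j l * t i j l :=
      fun i => Finset.sum_comm
    simp only [this]
    rw [Finset.sum_comm]
  constructor
  · intro hx l
    rw [mem_per] at hx ⊢
    intro r hr
    have h1 : (fun i j l' => if l' = l then r i j else 0) ∈ RV R := by
      intro l'
      by_cases hl : l' = l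
      · simp only [hl, if_true]
        exact hr
      · simp only [hl, if_false]
        exact R.zero_mem
    have h2 := hx _ h1
    rw [hswap, Finset.sum_eq_single l] at h2
    · simpa [e2_apply] using h2
    · intro b _ hb
      simp [hb]
    · intro h
      exact absurd (Finset.mem_univ l) h
  · intro hx
    rw [mem_per]
    intro t ht
    rw [hswap]
    refine Finset.sum_eq_zero fun l _ => ?_
    have := hx l
    rw [mem_per] at this
    exact this _ (ht l)

/-- the distributivity property -/
def Star (R : Submodule k (Fin d → Fin d → k)) (Y : Submodule k (Fin d → k)) : Prop :=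
  VVY Y ⊓ (RV R ⊔ VR R) ≤ (VVY Y ⊓ RV R) ⊔ (VVY Y ⊓ VR R)

lemma Star.dual {R : Submodule k (Fin d → Fin d → k)} {Y : Submodule k (Fin d → k)}
    (h : Star R Y) : Star (per (e2 k d) R) (per (e1 k d) Y) := by
  have h1 : VVY Y ⊓ (RV R ⊔ VR R) = (VVY Y ⊓ RV R) ⊔ (VVY Y ⊓ VR R) :=
    le_antisymm h (le_inf (sup_le inf_le_left inf_le_left) (sup_le_sup inf_le_right inf_le_right))
  have h2 := congrArg (per (e3 k d)) h1
  rw [per_inf, per_sup, per_sup, per_inf, per_inf, per_VVY, per_RV, per_VR] at h2
  rintro x ⟨hx, hx2⟩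
  rw [SetLike.mem_coe, Submodule.mem_sup] at hx2
  obtain ⟨α, hα, β, hβ, rfl⟩ := hx2
  have h3 : α ∈ VVY (per (e1 k d) Y) ⊔ RV (per (e2 k d) R) ⊓ VR (per (e2 k d) R) := by
    rw [h2]
    refine ⟨Submodule.mem_sup_right hα, ?_⟩
    have : α = (α + β) + (-β) := by abel
    rw [this]
    exact Submodule.add_mem_sup hx (Submodule.neg_mem _ hβ)
  rw [Submodule.mem_sup] at h3
  obtain ⟨γ, hγ, δ, hδ, rfl⟩ := h3
  have e : γ + δ + β = γ + (δ + β) := by abel
  rw [e]
  apply Submodule.add_mem_sup
  · refine ⟨hγ, ?_⟩
    have : γ = (γ + δ) - δ := by abel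
    rw [this]
    exact Submodule.sub_mem _ hα hδ.1
  · refine ⟨?_, Submodule.add_mem _ hδ.2 hβ⟩
    have : δ + β = (γ + δ + β) - γ := by abel
    rw [this]
    exact Submodule.sub_mem _ hx hγ

lemma Star.deg {S : Submodule k (Fin d → Fin d → k)} {J : Submodule k (Fin d → k)} (h : Star S J)
    (x : Fin d → Fin d → Fin d → k) (hx : ∀ i j, x i j ∈ J)
    (hab : ∃ a b : Fin d → Fin d → Fin d → k, x = a + b ∧ (∀ l, (fun i j => a i j l) ∈ S) ∧
      (∀ i, b i ∈ S)) :
    ∃ a b : Fin d → Fin d → Fin d → k, x = a + b ∧ (∀ l, (fun i j => a i j l) ∈ S) ∧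
      (∀ i, b i ∈ S ⊓ VJ J) := by
  obtain ⟨a, b, rfl, ha, hb⟩ := hab
  have h1 : a + b ∈ VVY J ⊓ (RV S ⊔ VR S) := ⟨hx, Submodule.add_mem_sup ha hb⟩
  have h2 := h h1
  rw [Submodule.mem_sup] at h2
  obtain ⟨a', ha', b', hb', h3⟩ := h2
  exact ⟨a', b', h3.symm, ha'.2, fun i => ⟨hb'.2 i, hb'.1 i⟩⟩

end Pool.Agent.Helper83.BK
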