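import Mathlib

set_option autoImplicit false

namespace Pool.Agent.Helper83.BK

open CategoryTheory CategoryTheory.Abelian TensorProduct

universe u

section gen

variable {A : Type u} [Ring A] {P N : Type u} [AddCommGroup P] [Module A P] [AddCommGroup N]
  [Module A N]

/-- lowering the degree -/
lemma ext_lower (π : P →ₗ[A] N) (hπ : Function.Surjective π) [Module.Projective A P]
    (T : ModuleCat.{u} A) (j : ℕ) (h : Subsingleton (Ext (ModuleCat.of A N) T (j + 2))) :
    Subsingleton (Ext (ModuleCat.of A (LinearMap.ker π)) T (j + 1)) := by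
  have hS := LinearMap.shortExact_shortComplexKer hπ
  have hP : Projective (ModuleCat.of A P) := inferInstance
  refine subsingleton_of_forall_eq 0 fun x => ?_
  have h1 : hS.extClass.comp x (show 1 + (j + 1) = j + 2 by omega) = 0 := Subsingleton.elim _ _
  obtain ⟨y, hy⟩ := Ext.contravariant_sequence_exact₁ hS T x _ h1
  rw [← hy, Ext.eq_zero_of_projective (P := ModuleCat.of A P) y, Ext.comp_zero]

lemma ext_extend (π : P →ₗ[A] N) (hπ : Function.Surjective π) (T : ModuleCat.{u} A)
    (h : Subsingleton (Ext (ModuleCat.of A N) T 1)) (f : LinearMap.ker π →ₗ[A] T) :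
    ∃ g : P →ₗ[A] T, ∀ x : LinearMap.ker π, g x = f x := by
  have hS := LinearMap.shortExact_shortComplexKer hπ
  have h1 : hS.extClass.comp (Ext.mk₀ (ModuleCat.ofHom f)) (show 1 + 0 = 1 by rfl) = 0 :=
    Subsingleton.elim _ _
  obtain ⟨y, hy⟩ := Ext.contravariant_sequence_exact₁ hS T _ _ h1
  obtain ⟨g, rfl⟩ := Ext.addEquiv₀.symm.surjective y
  rw [Ext.addEquiv₀_symm_apply, Ext.mk₀_comp_mk₀] at hy
  have h2 := Ext.addEquiv₀.symm.injective hy
  refine ⟨g.hom, fun x => ?_⟩
  have h3 := congrArg (fun φ => φ.hom x) h2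
  exact h3

end gen

section lin

variable {k : Type u} [Field k] {A : Type u} [Ring A] [Algebra k A] {P N : Type u}
  [AddCommGroup P] [Module A P] [AddCommGroup N] [Module A N]

/-- dimension shift, positive degree -/
lemma ext_finrank_shift (π : P →ₗ[A] N) (hπ : Function.Surjective π) [Module.Projective A P]
    (T : ModuleCat.{u} A) (j : ℕ) :
    Module.finrank k (Ext (ModuleCat.of A N) T (j + 2)) =
      Module.finrank k (Ext (ModuleCat.of A (LinearMap.ker π)) T (j + 1)) := by
  have hS := LinearMap.shortExact_shortComplexKer hπ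
  have hP : Projective (ModuleCat.of A P) := inferInstance
  let φ : Ext (ModuleCat.of A (LinearMap.ker π)) T (j + 1) →ₗ[k] Ext (ModuleCat.of A N) T (j + 2) :=
    hS.extClass.precompOfLinear k T (show 1 + (j + 1) = j + 2 by omega)
  have hinj : Function.Injective φ := by
    rw [injective_iff_map_eq_zero]
    intro x hx
    obtain ⟨y, hy⟩ := Ext.contravariant_sequence_exact₁ hS T x (show 1 + (j + 1) = j + 2 by omega) hx
    rw [← hy, Ext.eq_zero_of_projective (P := ModuleCat.of A P) y, Ext.comp_zero]
  have hsurj : Function.Surjective φ := by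
    intro x
    exact Ext.contravariant_sequence_exact₃ hS T x
      (Ext.eq_zero_of_projective (P := ModuleCat.of A P) _) (show 1 + (j + 1) = j + 2 by omega)
  exact (LinearEquiv.ofBijective φ ⟨hinj, hsurj⟩).finrank_eq.symm

lemma ext_finrank_zero (π : P →ₗ[A] N) (hπ : Function.Surjective π) [Module.Projective A P]
    (T : ModuleCat.{u} A) (hvan : ∀ g : P →ₗ[A] T, ∀ x : LinearMap.ker π, g x = 0) :
    Module.finrank k (Ext (ModuleCat.of A N) T 1) =
      Module.finrank k (ModuleCat.of A (LinearMap.ker π) ⟶ T) := by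
  have hS := LinearMap.shortExact_shortComplexKer hπ
  have hP : Projective (ModuleCat.of A P) := inferInstance
  let φ : Ext (ModuleCat.of A (LinearMap.ker π)) T 0 →ₗ[k] Ext (ModuleCat.of A N) T 1 :=
    hS.extClass.precompOfLinear k T (show 1 + 0 = 1 by rfl)
  have hinj : Function.Injective φ := by
    rw [injective_iff_map_eq_zero]
    intro x hx
    obtain ⟨y, hy⟩ := Ext.contravariant_sequence_exact₁ hS T x (show 1 + 0 = 1 by rfl) hx
    obtain ⟨g, rfl⟩ := Ext.addEquiv₀.symm.surjective y
    rw [← hy, Ext.addEquiv₀_symm_apply, Ext.mk₀_comp_mk₀]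
    have : (LinearMap.shortComplexKer π).f ≫ g = 0 := by
      ext x
      exact hvan g.hom x
    rw [this, Ext.mk₀_zero]
  have hsurj : Function.Surjective φ := by
    intro x
    exact Ext.contravariant_sequence_exact₃ hS T x
      (Ext.eq_zero_of_projective (P := ModuleCat.of A P) _) (show 1 + 0 = 1 by rfl)
  rw [← (LinearEquiv.ofBijective φ ⟨hinj, hsurj⟩).finrank_eq]
  exact (Ext.linearEquiv₀ (R := k)).finrank_eq

end lin

end Pool.Agent.Helper83.BK
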