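import Pool.Agent.Helper83.BK.ExtTools
import Pool.Agent.Helper83.BK.Duality

set_option autoImplicit false

namespace Pool.Agent.Helper83.BK

open CategoryTheory CategoryTheory.Abelian TensorProduct

universe u

section triv

variable {k : Type u} [Field k] {A : Type u} [Ring A] [Algebra k A]

/-- The one-dimensional module on which `A` acts through `ε`. -/
def Triv (ε : A →ₐ[k] k) : Type u := (fun _ : A →ₐ[k] k => k) ε

noncomputable instance (ε : A →ₐ[k] k) : AddCommGroup (Triv ε) := inferInstanceAs (AddCommGroup k)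

noncomputable instance (ε : A →ₐ[k] k) : Module A (Triv ε) := Module.compHom k ε.toRingHom

/-- underlying scalar -/
def toK (ε : A →ₐ[k] k) (t : Triv ε) : k := t

lemma toK_inj (ε : A →ₐ[k] k) {s t : Triv ε} (h : toK ε s = toK ε t) : s = t := h

lemma toK_add (ε : A →ₐ[k] k) (s t : Triv ε) : toK ε (s + t) = toK ε s + toK ε t := rfl

lemma toK_zero (ε : A →ₐ[k] k) : toK ε 0 = 0 := rfl

lemma toK_smul (ε : A →ₐ[k] k) (a : A) (t : Triv ε) : toK ε (a • t) = ε a * toK ε t := rfl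

end triv

section vanish

variable {k : Type u} [Field k] {d : ℕ} {A : Type u} [Ring A] [Algebra k A]
  {B : Type u} [Ring B] [Algebra k B]

/-- the action map -/
noncomputable def actM (k : Type u) [Field k] (A : Type u) [Ring A] [Algebra k A] (N : Type u)
    [AddCommGroup N] [Module k N] [Module A N] [IsScalarTower k A N] : A ⊗[k] N →ₗ[A] N :=
  AlgebraTensorModule.lift (LinearMap.toSpanSingleton A (N →ₗ[k] N) LinearMap.id)

lemma actM_tmul {N : Type u} [AddCommGroup N] [Module k N] [Module A N] [IsScalarTower k A N]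
    (a : A) (n : N) : actM k A N (a ⊗ₜ[k] n) = a • n := rfl

lemma actM_surj {N : Type u} [AddCommGroup N] [Module k N] [Module A N] [IsScalarTower k A N] :
    Function.Surjective (actM k A N) := fun n => ⟨(1 : A) ⊗ₜ[k] n, by rw [actM_tmul, one_smul]⟩

/-- next `κ` -/
noncomputable def kapN {N : Type u} [AddCommGroup N] [Module k N]
    (ιA : (Fin d → k) →ₗ[k] A) (ιB : (Fin d → k) →ₗ[k] B) (κ : Module.Dual k B →ₗ[k] N) :
    Module.Dual k B →ₗ[k] A ⊗[k] N where
  toFun ψ := ∑ i, ιA (eb k d i) ⊗ₜ[k] κ (ψ ∘ₗ LinearMap.mulRight k (ιB (eb k d i)))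
  map_add' a b := by
    simp only [LinearMap.add_comp, map_add, tmul_add, Finset.sum_add_distrib]
  map_smul' c a := by
    simp only [LinearMap.smul_comp, map_smul, tmul_smul, Finset.smul_sum, RingHom.id_apply]

lemma kapN_apply {N : Type u} [AddCommGroup N] [Module k N]
    (ιA : (Fin d → k) →ₗ[k] A) (ιB : (Fin d → k) →ₗ[k] B) (κ : Module.Dual k B →ₗ[k] N)
    (ψ : Module.Dual k B) : kapN ιA ιB κ ψ =
      ∑ i, ιA (eb k d i) ⊗ₜ[k] κ (ψ ∘ₗ LinearMap.mulRight k (ιB (eb k d i))) := rfl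

lemma kapN_ker {N : Type u} [AddCommGroup N] [Module k N] [Module A N] [IsScalarTower k A N]
    (ιA : (Fin d → k) →ₗ[k] A) (ιB : (Fin d → k) →ₗ[k] B) (κ : Module.Dual k B →ₗ[k] N)
    (hκ : ∀ ψ : Module.Dual k B,
        ∑ i, ιA (eb k d i) • κ (ψ ∘ₗ LinearMap.mulRight k (ιB (eb k d i))) = 0)
    (ψ : Module.Dual k B) : kapN ιA ιB κ ψ ∈ LinearMap.ker (actM k A N) := by
  rw [LinearMap.mem_ker, kapN_apply, map_sum]
  exact hκ ψ

/-- next `G` -/
noncomputable def GN {N : Type u} [AddCommGroup N] [Module k N]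
    (π : A →ₗ[k] (Fin d → k)) (G : N →ₗ[k] k) (ξ : Fin d → k) : A ⊗[k] N →ₗ[k] k :=
  TensorProduct.lift ((LinearMap.mul k k).compl₁₂ ((pair1 ξ) ∘ₗ π) G)

lemma GN_tmul {N : Type u} [AddCommGroup N] [Module k N]
    (π : A →ₗ[k] (Fin d → k)) (G : N →ₗ[k] k) (ξ : Fin d → k) (a : A) (n : N) :
    GN π G ξ (a ⊗ₜ[k] n) = pair1 ξ (π a) * G n := rfl

lemma GN_smul {N : Type u} [AddCommGroup N] [Module k N] [Module A N] [IsScalarTower k A N]
    (ε : A →ₐ[k] k) (π : A →ₗ[k] (Fin d → k)) (hπ : ∀ a b, π (a * b) = ε a • π b + ε b • π a)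
    (G : N →ₗ[k] k) (hG : ∀ (a : A) (n : N), G (a • n) = ε a * G n) (ξ : Fin d → k)
    (a : A) (x : A ⊗[k] N) :
    GN π G ξ (a • x) = ε a * GN π G ξ x + pair1 ξ (π a) * G (actM k A N x) := by
  induction x with
  | zero => simp
  | add x y hx hy =>
    rw [smul_add, map_add, hx, hy, map_add, map_add, map_add]
    ring
  | tmul a' n =>
    rw [smul_tmul', GN_tmul, GN_tmul, actM_tmul, hG, smul_eq_mul, hπ, map_add, map_smul, map_smul,
      smul_eq_mul, smul_eq_mul]
    ring

lemma GN_kapN {N : Type u} [AddCommGroup N] [Module k N]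
    (ιA : (Fin d → k) →ₗ[k] A) (ιB : (Fin d → k) →ₗ[k] B) (κ : Module.Dual k B →ₗ[k] N)
    (π : A →ₗ[k] (Fin d → k)) (hπι : ∀ v, π (ιA v) = v) (G : N →ₗ[k] k) (ξ : Fin d → k) (b : B)
    (hGb : ∀ ψ, G (κ ψ) = ψ b) (ψ : Module.Dual k B) :
    GN π G ξ (kapN ιA ιB κ ψ) = ψ (b * ιB ξ) := by
  show GN π G ξ (∑ i, ιA (eb k d i) ⊗ₜ[k] κ (ψ ∘ₗ LinearMap.mulRight k (ιB (eb k d i)))) = _
  rw [map_sum]
  conv_rhs => rw [← sum_eb ξ]
  rw [map_sum, Finset.mul_sum, map_sum]
  refine Finset.sum_congr rfl fun i _ => ?_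
  rw [GN_tmul, hπι, hGb, LinearMap.comp_apply, LinearMap.mulRight_apply, map_smul,
    mul_smul_comm, map_smul, smul_eq_mul]
  congr 1
  rw [pair1_apply]
  simp [eb, Pi.single_apply]

theorem vanish (ιA : (Fin d → k) →ₗ[k] A) (ιB : (Fin d → k) →ₗ[k] B)
    (ε : A →ₐ[k] k) (π : A →ₗ[k] (Fin d → k))
    (hε : ∀ v, ε (ιA v) = 0)
    (hπ : ∀ a b, π (a * b) = ε a • π b + ε b • π a) (hπι : ∀ v, π (ιA v) = v)
    (hcan : ∀ (M : Type u) [AddCommGroup M] [Module k M] (Φ : B →ₗ[k] M),
      ∑ i, ∑ j, (ιA (eb k d i) * ιA (eb k d j)) ⊗ₜ[k] Φ (ιB (eb k d j) * ιB (eb k d i)) = 0) :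
    ∀ (j : ℕ) (N : Type u) [AddCommGroup N] [Module k N] [Module A N] [IsScalarTower k A N]
      (κ : Module.Dual k B →ₗ[k] N)
      (_ : ∀ ψ : Module.Dual k B,
        ∑ i, ιA (eb k d i) • κ (ψ ∘ₗ LinearMap.mulRight k (ιB (eb k d i))) = 0)
      (G : N →ₗ[k] k) (_ : ∀ (a : A) (n : N), G (a • n) = ε a * G n) (b : B)
      (_ : ∀ ψ, G (κ ψ) = ψ b)
      (_ : Subsingleton (Ext (ModuleCat.of A N) (ModuleCat.of A (Triv ε)) (j + 1)))
      (l : List (Fin d → k)), l.length = j + 1 → b * (l.map ιB).prod = 0 := by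
  intro j
  induction j with
  | zero =>
    intro N _ _ _ _ κ hκ G hG b hGb hExt l hl
    obtain ⟨ξ, rfl⟩ := List.length_eq_one_iff.1 hl
    simp only [List.map_cons, List.map_nil, List.prod_cons, List.prod_nil, mul_one]
    let f' : LinearMap.ker (actM k A N) →ₗ[A] Triv ε :=
      { toFun := fun x => GN π G ξ x.1
        map_add' := fun x y => map_add (GN π G ξ) x.1 y.1
        map_smul' := fun a x => by
          have h := GN_smul ε π hπ G hG ξ a x.1
          rw [show actM k A N x.1 = 0 from x.2, map_zero, mul_zero, add_zero] at h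
          exact h }
    obtain ⟨g, hg⟩ := ext_extend (actM k A N) actM_surj (ModuleCat.of A (Triv ε)) hExt f'
    have hker := kapN_ker ιA ιB κ hκ
    rw [← Module.forall_dual_apply_eq_zero_iff k]
    intro ψ
    rw [← GN_kapN ιA ιB κ π hπι G ξ b hGb ψ]
    have h1 : g (kapN ιA ιB κ ψ) = GN π G ξ (kapN ιA ιB κ ψ) := hg ⟨_, hker ψ⟩
    have h2 : g (kapN ιA ιB κ ψ) = 0 := by
      show g (∑ i, ιA (eb k d i) ⊗ₜ[k] κ (ψ ∘ₗ LinearMap.mulRight k (ιB (eb k d i)))) = 0
      rw [map_sum]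
      refine Finset.sum_eq_zero fun i _ => ?_
      have h3 : ιA (eb k d i) ⊗ₜ[k] κ (ψ ∘ₗ LinearMap.mulRight k (ιB (eb k d i))) =
          ιA (eb k d i) • ((1 : A) ⊗ₜ[k] κ (ψ ∘ₗ LinearMap.mulRight k (ιB (eb k d i)))) := by
        rw [smul_tmul', smul_eq_mul, mul_one]
      rw [h3, map_smul]
      have h4 : ∀ t : Triv ε, ιA (eb k d i) • t = 0 := by
        intro t
        apply toK_inj
        rw [toK_smul, hε, zero_mul, toK_zero]
      exact h4 _
    rw [← h1, h2]
    rfl
  | succ j ih =>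
    intro N _ _ _ _ κ hκ G hG b hGb hExt l hl
    obtain ⟨ξ, l, rfl⟩ := List.exists_cons_of_length_eq_add_one hl
    simp only [List.map_cons, List.prod_cons]
    rw [← mul_assoc]
    have hker := kapN_ker ιA ιB κ hκ
    let κ' : Module.Dual k B →ₗ[k] LinearMap.ker (actM k A N) :=
      { toFun := fun ψ => ⟨kapN ιA ιB κ ψ, hker ψ⟩
        map_add' := fun x y => Subtype.ext (map_add _ _ _)
        map_smul' := fun c x => Subtype.ext (map_smul _ _ _) }
    let G' : LinearMap.ker (actM k A N) →ₗ[k] k :=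
      { toFun := fun x => GN π G ξ x.1
        map_add' := fun x y => map_add (GN π G ξ) x.1 y.1
        map_smul' := fun c x => map_smul (GN π G ξ) c x.1 }
    refine ih (LinearMap.ker (actM k A N)) κ' ?_ G' ?_ (b * ιB ξ) ?_
      (ext_lower (actM k A N) actM_surj _ j hExt) l (by simpa using hl)
    · intro ψ
      apply Subtype.ext
      rw [Submodule.coe_sum]
      have hΦ := hcan N
        { toFun := fun c => κ (ψ ∘ₗ LinearMap.mulRight k c)
          map_add' := fun x y => by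
            rw [← map_add]
            congr 1
            ext z
            simp [mul_add]
          map_smul' := fun c x => by
            rw [RingHom.id_apply, ← map_smul]
            congr 1
            ext z
            simp }
      refine Eq.trans (Finset.sum_congr rfl fun i _ => ?_) hΦ
      show ιA (eb k d i) • (kapN ιA ιB κ (ψ ∘ₗ LinearMap.mulRight k (ιB (eb k d i)))) = _
      rw [kapN_apply, Finset.smul_sum]
      refine Finset.sum_congr rfl fun j _ => ?_
      rw [smul_tmul', smul_eq_mul]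
      congr 1
      show κ _ = κ _
      congr 1
      ext z
      simp [mul_assoc]
    · intro a x
      have h := GN_smul ε π hπ G hG ξ a x.1
      rw [show actM k A N x.1 = 0 from x.2, map_zero, mul_zero, add_zero] at h
      exact h
    · intro ψ
      exact GN_kapN ιA ιB κ π hπι G ξ b hGb ψ

end vanish

end Pool.Agent.Helper83.BK
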